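import Mathlib

/-!
# Guessing dense open subsets of a countable order

If `r` enumerates a nonmeagre subset of the Baire space and `g` a dominating family, then for every
countable quasi-order there is a correspondingly indexed family of progressive maps such that every
dense open set absorbs one of the maps.
-/

namespace Pool.Agent.Work.MP_e99821_lc

section

variable {N : Type*} (en : N → ℕ → N) (idx : N → ℕ)

/-- The walk from `t` driven by `ρ`. -/
def walk (ρ : ℕ → ℕ) (t : N) : ℕ → N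
  | 0 => t
  | n + 1 => en (walk ρ t n) (ρ (Nat.pair (idx t) n))

theorem walk_congr {ρ ρ' : ℕ → ℕ} {t : N} {n : ℕ}
    (h : ∀ k < n, ρ (Nat.pair (idx t) k) = ρ' (Nat.pair (idx t) k)) :
    walk en idx ρ t n = walk en idx ρ' t n := by
  induction n with
  | zero => rfl
  | succ n ih =>
    show en (walk en idx ρ t n) _ = en (walk en idx ρ' t n) _
    rw [ih (fun k hk => h k (by omega)), h n (by omega)]

theorem isOpen_walk (t : N) (n : ℕ) (U : Set N) : IsOpen {ρ : ℕ → ℕ | walk en idx ρ t n ∈ U} := by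
  rw [isOpen_pi_iff]
  intro ρ hρ
  refine ⟨(Finset.range n).image (Nat.pair (idx t)), fun k => {ρ k}, ?_, ?_⟩
  · intro k _
    exact ⟨isOpen_discrete _, rfl⟩
  · intro ρ' hρ'
    have : walk en idx ρ' t n = walk en idx ρ t n := by
      apply walk_congr
      intro k hk
      exact hρ' (Nat.pair (idx t) k)
        (Finset.mem_coe.2 (Finset.mem_image.2 ⟨k, Finset.mem_range.2 hk, rfl⟩))
    show walk en idx ρ' t n ∈ U
    rw [this]
    exact hρ

end

theorem exists_phi {N : Type*} (B : Set N) (hB : B.Countable) (E : N → N → Prop)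
    (hrefl : ∀ t, E t t) (htrans : ∀ a b c, E a b → E b c → E a c) {I J : Type*}
    (r : I → ℕ → ℕ) (hr : ¬ IsMeagre (Set.range r))
    (g : J → ℕ → ℕ) (hg : ∀ f : ℕ → ℕ, ∃ j, ∀ n, f n ≤ g j n) :
    ∃ Φ : I × J → N → N, (∀ i, ∀ t ∈ B, Φ i t ∈ B ∧ E t (Φ i t)) ∧
      ∀ U : Set N, (∀ t ∈ B, ∃ u ∈ U, u ∈ B ∧ E t u) → (∀ u ∈ U, ∀ v ∈ B, E u v → v ∈ U) →
        ∃ i, ∀ t ∈ B, Φ i t ∈ U := by
  classical
  obtain ⟨idx, hidx⟩ := Set.countable_iff_exists_injOn.1 hB
  have hen : ∀ t : N, ∃ en : ℕ → N, t ∈ B → Set.range en = {u | u ∈ B ∧ E t u} := by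
    intro t
    by_cases ht : t ∈ B
    · have hc : {u | u ∈ B ∧ E t u}.Countable := hB.mono (fun u hu => hu.1)
      obtain ⟨en, hen⟩ := hc.exists_eq_range ⟨t, ht, hrefl t⟩
      exact ⟨en, fun _ => hen.symm⟩
    · exact ⟨fun _ => t, fun h => absurd h ht⟩
  choose en hen using hen
  have hen' : ∀ t ∈ B, ∀ m, en t m ∈ B ∧ E t (en t m) := by
    intro t ht m
    have : en t m ∈ {u | u ∈ B ∧ E t u} := by rw [← hen t ht]; exact ⟨m, rfl⟩
    exact this
  have hwalk : ∀ ρ : ℕ → ℕ, ∀ t ∈ B, ∀ n,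
      walk en idx ρ t n ∈ B ∧ E t (walk en idx ρ t n) := by
    intro ρ t ht n
    induction n with
    | zero => exact ⟨ht, hrefl t⟩
    | succ n ih =>
      have := hen' _ ih.1 (ρ (Nat.pair (idx t) n))
      exact ⟨this.1, htrans _ _ _ ih.2 this.2⟩
  refine ⟨fun p t => walk en idx (r p.1) t (g p.2 (idx t)), fun p t ht => hwalk _ t ht _, ?_⟩
  intro U hUd hUo
  have hup : ∀ ρ : ℕ → ℕ, ∀ t ∈ B, ∀ n m, n ≤ m → walk en idx ρ t n ∈ U →
      walk en idx ρ t m ∈ U := by
    intro ρ t ht n m hnm hn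
    induction m, hnm using Nat.le_induction with
    | base => exact hn
    | succ m hm ih =>
      have h1 := hwalk ρ t ht m
      have h2 := hen' _ h1.1 (ρ (Nat.pair (idx t) m))
      exact hUo _ ih _ h2.1 h2.2
  have hopen : ∀ t, IsOpen {ρ : ℕ → ℕ | ∃ n, walk en idx ρ t n ∈ U} := by
    intro t
    have : {ρ : ℕ → ℕ | ∃ n, walk en idx ρ t n ∈ U} = ⋃ n, {ρ | walk en idx ρ t n ∈ U} := by
      ext ρ; simp
    rw [this]
    exact isOpen_iUnion (fun n => isOpen_walk en idx t n U)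
  have hdense : ∀ t ∈ B, Dense {ρ : ℕ → ℕ | ∃ n, walk en idx ρ t n ∈ U} := by
    intro t ht
    rw [dense_iff_inter_open]
    rintro V hV ⟨ρ₀, hρ₀⟩
    obtain ⟨F, v, hv, hsub⟩ := isOpen_pi_iff.1 hV ρ₀ hρ₀
    obtain ⟨M, hM⟩ : ∃ M, ∀ k ∈ F, k < M := ⟨F.sup id + 1, fun k hk => by
      have : k ≤ F.sup id := Finset.le_sup (f := id) hk
      omega⟩
    obtain ⟨u, huU, huB, hEu⟩ := hUd _ (hwalk ρ₀ t ht M).1
    have hum : u ∈ Set.range (en (walk en idx ρ₀ t M)) := by
      rw [hen _ (hwalk ρ₀ t ht M).1]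
      exact ⟨huB, hEu⟩
    obtain ⟨m, hm⟩ := hum
    refine ⟨Function.update ρ₀ (Nat.pair (idx t) M) m, hsub ?_, M + 1, ?_⟩
    · intro k hk
      have hne : k ≠ Nat.pair (idx t) M := by
        have h1 := hM k hk
        have h2 : M ≤ Nat.pair (idx t) M := Nat.right_le_pair _ _
        omega
      rw [Function.update_of_ne hne]
      exact (hv k hk).2
    · have h1 : walk en idx (Function.update ρ₀ (Nat.pair (idx t) M) m) t M =
          walk en idx ρ₀ t M := by
        apply walk_congr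
        intro k hk
        have hne : Nat.pair (idx t) k ≠ Nat.pair (idx t) M := by
          intro h
          have := (Nat.pair_eq_pair.1 h).2
          omega
        rw [Function.update_of_ne hne]
      show en (walk en idx (Function.update ρ₀ (Nat.pair (idx t) M) m) t M)
        (Function.update ρ₀ (Nat.pair (idx t) M) m (Nat.pair (idx t) M)) ∈ U
      rw [h1, Function.update_self, hm]
      exact huU
  have hres : (⋂ t ∈ B, {ρ : ℕ → ℕ | ∃ n, walk en idx ρ t n ∈ U}) ∈ residual (ℕ → ℕ) := by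
    rw [countable_bInter_mem hB]
    intro t ht
    exact residual_of_dense_open (hopen t) (hdense t ht)
  obtain ⟨i, hi⟩ : ∃ i, ∀ t ∈ B, ∃ n, walk en idx (r i) t n ∈ U := by
    by_contra hcon
    push Not at hcon
    apply hr
    have hmea : IsMeagre (⋂ t ∈ B, {ρ : ℕ → ℕ | ∃ n, walk en idx ρ t n ∈ U})ᶜ := by
      show (⋂ t ∈ B, {ρ : ℕ → ℕ | ∃ n, walk en idx ρ t n ∈ U})ᶜᶜ ∈ residual (ℕ → ℕ)
      rw [compl_compl]
      exact hres
    refine hmea.mono ?_
    rintro _ ⟨i, rfl⟩ hmem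
    obtain ⟨t, ht, hno⟩ := hcon i
    simp only [Set.mem_iInter] at hmem
    obtain ⟨n, hn⟩ := hmem t ht
    exact hno n hn
  choose! k hk using hi
  obtain ⟨j, hj⟩ := hg (fun m => if h : ∃ t ∈ B, idx t = m then k h.choose else 0)
  refine ⟨(i, j), fun t ht => ?_⟩
  have hex : ∃ t' ∈ B, idx t' = idx t := ⟨t, ht, rfl⟩
  have hle : (if h : ∃ t' ∈ B, idx t' = idx t then k h.choose else 0) ≤ g j (idx t) := hj (idx t)
  rw [dif_pos hex] at hle
  have heq : hex.choose = t := hidx hex.choose_spec.1 ht hex.choose_spec.2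
  rw [heq] at hle
  exact hup (r i) t ht _ _ hle (hk t ht)

end Pool.Agent.Work.MP_e99821_lc
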