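import Mathlib

/-!
# The club principle and Souslin trees
-/

namespace Pool.Agent.Work.MP_e99821_lc

open Ordinal

/-- The club principle on `ω₁`: there are sets `A α ⊆ α`, cofinal in `α`, for the countable limit
ordinals `α`, such that every uncountable `X ⊆ ω₁` includes one of them. -/
def ClubPrinciple : Prop :=
  ∃ A : Ordinal.{0} → Set Ordinal.{0},
    (∀ α, α < ω_ 1 → Order.IsSuccLimit α → A α ⊆ Set.Iio α ∧ ∀ β < α, ∃ γ ∈ A α, β < γ) ∧
    ∀ X : Set Ordinal.{0}, X ⊆ Set.Iio (ω_ 1) → ¬ X.Countable →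
      ∃ α, α < ω_ 1 ∧ Order.IsSuccLimit α ∧ A α ⊆ X

/-- An `ℵ₁`-Souslin tree: a partial order in which the predecessors of every point are well ordered
in a countable type, every countable ordinal being such a type (a tree of height `ω₁`), and all
chains and all antichains are countable. -/
structure IsSouslinTree (T : Type) [PartialOrder T] : Prop where
  /-- the height of every point is a countable ordinal -/
  height_lt : ∀ t : T, ∃ α : Ordinal.{0}, α < ω_ 1 ∧ Nonempty (Set.Iio t ≃o Set.Iio α)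
  /-- every countable ordinal is the height of some point -/
  height_surj : ∀ α : Ordinal.{0}, α < ω_ 1 → ∃ t : T, Nonempty (Set.Iio t ≃o Set.Iio α)
  /-- all chains are countable -/
  chain_countable : ∀ C : Set T, IsChain (· ≤ ·) C → C.Countable
  /-- all antichains are countable -/
  antichain_countable : ∀ C : Set T, IsAntichain (· ≤ ·) C → C.Countable

/-- There is an `ℵ₁`-Souslin tree. -/
def SouslinTreeExists : Prop := ∃ (T : Type) (_ : PartialOrder T), IsSouslinTree T

/-- The stick number is at most `κ`: there are at most `κ` infinite sets such that every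
uncountable subset of `ω₁` includes one of them. -/
def StickAtMost (κ : Cardinal.{0}) : Prop :=
  ∃ (ι : Type) (A : ι → Set Ordinal.{0}), Cardinal.mk ι ≤ κ ∧ (∀ i, (A i).Infinite) ∧
    ∀ X : Set Ordinal.{0}, X ⊆ Set.Iio (ω_ 1) → ¬ X.Countable → ∃ i, A i ⊆ X

/-- `cov(M) ≤ κ`: the Baire space is the union of at most `κ` nowhere dense sets. -/
def CovMeagreAtMost (κ : Cardinal.{0}) : Prop :=
  ∃ 𝓕 : Set (Set (ℕ → ℕ)), Cardinal.mk 𝓕 ≤ κ ∧ (∀ F ∈ 𝓕, IsNowhereDense F) ∧
    ⋃₀ 𝓕 = Set.univ

/-- `non(M) ≤ κ`: the Baire space has a nonmeagre subset with at most `κ` elements. -/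
def NonMeagreAtMost (κ : Cardinal.{0}) : Prop :=
  ∃ X : Set (ℕ → ℕ), Cardinal.mk X ≤ κ ∧ ¬ IsMeagre X

/-- `𝔡 ≤ κ`: there are at most `κ` functions such that every function is eventually bounded by one
of them. -/
def DominatingAtMost (κ : Cardinal.{0}) : Prop :=
  ∃ D : Set (ℕ → ℕ), Cardinal.mk D ≤ κ ∧
    ∀ f : ℕ → ℕ, ∃ g ∈ D, ∀ᶠ n in Filter.atTop, f n ≤ g n

end Pool.Agent.Work.MP_e99821_lc
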