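import Mathlib
import Pool.Agent.Work.MP_e99821_lc.Defs

/-!
# From a hitting family of functions to a Souslin tree
-/

namespace Pool.Agent.Work.MP_e99821_lc

open Ordinal

section Basics

variable {Ω : Type*} [LinearOrder Ω]

theorem bddAbove_of_countable' (hΩ : ∀ a : Ω, (Set.Iio a).Countable)
    (hunc : ¬ (Set.univ : Set Ω).Countable) {X : Set Ω} (hX : X.Countable) :
    ∃ δ, ∀ x ∈ X, x ≤ δ := by
  by_contra hcon
  push Not at hcon
  apply hunc
  have : (Set.univ : Set Ω) ⊆ ⋃ x ∈ X, Set.Iio x := by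
    intro a _
    obtain ⟨x, hx, hlt⟩ := hcon a
    simp only [Set.mem_iUnion]
    exact ⟨x, hx, hlt⟩
  exact (hX.biUnion (fun x _ => hΩ x)).mono this

theorem unbounded_of_uncountable (hΩ : ∀ a : Ω, (Set.Iio a).Countable) {X : Set Ω}
    (hX : ¬ X.Countable) (δ : Ω) : ∃ x ∈ X, δ < x := by
  by_contra hcon
  push Not at hcon
  apply hX
  have : X ⊆ insert δ (Set.Iio δ) := by
    intro x hx
    rcases (hcon x hx).eq_or_lt with h | h
    · left; exact h
    · right; exact h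
  exact ((hΩ δ).insert δ).mono this

theorem exists_thin [WellFoundedLT Ω] (hΩ : ∀ a : Ω, (Set.Iio a).Countable)
    (hunc : ¬ (Set.univ : Set Ω).Countable) (P : Ω → Prop) (Δ : Ω → Ω)
    (h : ∀ δ, ∃ ξ, P ξ ∧ δ < ξ ∧ δ < Δ ξ) :
    ∃ Z : Set Ω, ¬ Z.Countable ∧ (∀ ξ ∈ Z, P ξ) ∧ ∀ ξ ∈ Z, ∀ ξ' ∈ Z, ξ < ξ' → ξ < Δ ξ' := by
  classical
  have wf : WellFounded ((· < ·) : Ω → Ω → Prop) := IsWellFounded.wf
  choose g hg1 hg2 hg3 using h
  let F : ∀ a : Ω, (∀ b, b < a → Ω) → Ω := fun a rec =>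
    if h : ∃ δ, ∀ b (hb : b < a), rec b hb ≤ δ then g h.choose else a
  let C : Ω → Ω := wf.fix F
  have hC : ∀ a, C a = F a (fun b _ => C b) := fun a => wf.fix_eq F a
  have hbd : ∀ a, ∃ δ, ∀ b (_ : b < a), C b ≤ δ := by
    intro a
    obtain ⟨δ, hδ⟩ := bddAbove_of_countable' hΩ hunc ((hΩ a).image C)
    exact ⟨δ, fun b hb => hδ _ ⟨b, hb, rfl⟩⟩
  have hC' : ∀ a, C a = g (hbd a).choose := by
    intro a
    rw [hC a]
    simp only [F]
    rw [dif_pos (hbd a)]
  have hP : ∀ a, P (C a) := fun a => by rw [hC' a]; exact hg1 _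
  have hlt : ∀ a, ∀ b < a, C b < C a := by
    intro a b hb
    have := (hbd a).choose_spec b hb
    rw [hC' a]
    exact this.trans_lt (hg2 _)
  have hltΔ : ∀ a, ∀ b < a, C b < Δ (C a) := by
    intro a b hb
    have := (hbd a).choose_spec b hb
    rw [hC' a]
    exact this.trans_lt (hg3 _)
  have hmono : StrictMono C := fun b a hb => hlt a b hb
  refine ⟨Set.range C, ?_, ?_, ?_⟩
  · intro hcount
    apply hunc
    have : (Set.univ : Set Ω) = C ⁻¹' (Set.range C) := by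
      ext a; simp
    rw [this]
    exact hcount.preimage hmono.injective
  · rintro _ ⟨a, rfl⟩
    exact hP a
  · rintro _ ⟨b, rfl⟩ _ ⟨a, rfl⟩ hba
    exact hltΔ a b (hmono.lt_iff_lt.1 hba)

end Basics

variable {Ω : Type} [LinearOrder Ω]

/-- The nodes of the tree of all restrictions of the functions `u ξ` to initial segments `Iio α`
with `α ≤ ξ`. -/
def Node (u : Ω → Ω → Bool) : Type :=
  {p : Ω × (Ω → Bool) // ∃ ξ, p.1 ≤ ξ ∧ ∀ ζ, p.2 ζ = if ζ < p.1 then u ξ ζ else false}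

namespace Node

variable {u : Ω → Ω → Bool}

/-- The level of a node. -/
def lev (p : Node u) : Ω := p.1.1

/-- The values of a node. -/
def val (p : Node u) : Ω → Bool := p.1.2

/-- An index of a function through a node. -/
noncomputable def idx (p : Node u) : Ω := p.2.choose

theorem lev_le (p : Node u) : p.lev ≤ p.idx := p.2.choose_spec.1

theorem val_eq (p : Node u) (ζ : Ω) : p.val ζ = if ζ < p.lev then u p.idx ζ else false :=
  p.2.choose_spec.2 ζ

theorem val_lt (p : Node u) {ζ : Ω} (h : ζ < p.lev) : p.val ζ = u p.idx ζ := by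
  rw [val_eq, if_pos h]

theorem val_ge (p : Node u) {ζ : Ω} (h : ¬ ζ < p.lev) : p.val ζ = false := by
  rw [val_eq, if_neg h]

theorem ext' {p q : Node u} (h : p.lev = q.lev) (h' : ∀ ζ < p.lev, p.val ζ = q.val ζ) : p = q := by
  apply Subtype.ext
  apply Prod.ext
  · exact h
  · funext ζ
    by_cases hζ : ζ < p.lev
    · exact h' ζ hζ
    · show p.val ζ = q.val ζ
      rw [p.val_ge hζ, q.val_ge (by rw [← h]; exact hζ)]

instance : PartialOrder (Node u) where
  le p q := p.lev ≤ q.lev ∧ ∀ ζ < p.lev, p.val ζ = q.val ζ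
  le_refl p := ⟨le_rfl, fun _ _ => rfl⟩
  le_trans p q r h1 h2 := ⟨h1.1.trans h2.1, fun ζ hζ =>
    (h1.2 ζ hζ).trans (h2.2 ζ (hζ.trans_le h1.1))⟩
  le_antisymm p q h1 h2 := ext' (le_antisymm h1.1 h2.1) h1.2

theorem le_iff (p q : Node u) : p ≤ q ↔ p.lev ≤ q.lev ∧ ∀ ζ < p.lev, p.val ζ = q.val ζ := Iff.rfl

theorem lev_lt_of_lt {p q : Node u} (h : p < q) : p.lev < q.lev := by
  refine lt_of_le_of_ne h.le.1 (fun he => ?_)
  exact h.ne (ext' he h.le.2)

theorem agree {p q : Node u} (h : q < p) {ζ : Ω} (hζ : ζ < q.lev) : q.val ζ = p.val ζ :=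
  h.le.2 ζ hζ

/-- The restriction of a node. -/
def res (p : Node u) (α : Ω) (h : α ≤ p.lev) : Node u :=
  ⟨(α, fun ζ => if ζ < α then p.val ζ else false), p.idx, h.trans p.lev_le, fun ζ => by
    by_cases hζ : ζ < α
    · simp only [hζ, if_true]
      exact p.val_lt (hζ.trans_le h)
    · simp only [hζ, if_false]⟩

theorem res_lt (p : Node u) (α : Ω) (h : α < p.lev) : p.res α h.le < p := by
  refine lt_of_le_of_ne ⟨h.le, fun ζ hζ => ?_⟩ (fun he => ?_)
  · show (if ζ < α then p.val ζ else false) = p.val ζ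
    rw [if_pos (show ζ < α from hζ)]
  · have : (p.res α h.le).lev = p.lev := by rw [he]
    exact h.ne this

/-- The predecessors of a node are ordered as the initial segment of its level. -/
def iioIso (p : Node u) : Set.Iio p ≃o Set.Iio p.lev where
  toFun q := ⟨q.1.lev, lev_lt_of_lt q.2⟩
  invFun α := ⟨p.res α.1 (le_of_lt α.2), p.res_lt α.1 α.2⟩
  left_inv q := by
    apply Subtype.ext
    apply ext'
    · rfl
    · intro ζ hζ
      have hζ' : ζ < q.1.lev := hζ
      show (if ζ < q.1.lev then p.val ζ else false) = q.1.val ζ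
      rw [if_pos hζ']
      exact (Node.agree q.2 hζ').symm
  right_inv α := rfl
  map_rel_iff' := by
    intro q q'
    constructor
    · intro h
      have h' : q.1.lev ≤ q'.1.lev := h
      refine ⟨h', fun ζ hζ => ?_⟩
      exact (Node.agree q.2 hζ).trans (Node.agree q'.2 (hζ.trans_le h')).symm
    · intro h
      exact h.1

end Node

/-- An order isomorphism restricts to initial segments. -/
def iioIsoOfIso {A B : Type*} [Preorder A] [Preorder B] (e : A ≃o B) (a : A) :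
    Set.Iio a ≃o Set.Iio (e a) where
  toFun x := ⟨e x.1, e.lt_iff_lt.2 x.2⟩
  invFun y := ⟨e.symm y.1, by
    have := y.2
    simp only [Set.mem_Iio] at this ⊢
    rw [← e.lt_iff_lt, e.apply_symm_apply]
    exact this⟩
  left_inv x := by simp
  right_inv y := by simp
  map_rel_iff' := by
    intro x y
    show e x.1 ≤ e y.1 ↔ x.1 ≤ y.1
    exact e.le_iff_le

/-- The initial segments of the initial segment `Iio o`. -/
def iioIioIso {B : Type*} [Preorder B] {o : B} (a : Set.Iio o) : Set.Iio a ≃o Set.Iio a.1 where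
  toFun x := ⟨x.1.1, x.2⟩
  invFun y := ⟨⟨y.1, lt_trans (show y.1 < a.1 from y.2) a.2⟩, y.2⟩
  left_inv _ := rfl
  right_inv _ := rfl
  map_rel_iff' := Iff.rfl

/-- The tree lemma. -/
theorem souslin_of_hit [WellFoundedLT Ω] (e : Set.Iio (ω_ 1 : Ordinal.{0}) ≃o Ω)
    (hΩ : ∀ a : Ω, (Set.Iio a).Countable) (hunc : ¬ (Set.univ : Set Ω).Countable)
    (u : Ω → Ω → Bool)
    (hit1 : ∀ X : Set Ω, ¬ X.Countable → ∃ ξ ∈ X, ∃ ξ' ∈ X, ξ < ξ' ∧ ∀ ζ ≤ ξ, u ξ ζ = u ξ' ζ)
    (hit2 : ∀ X : Set Ω, ¬ X.Countable → ∃ ξ ∈ X, ∃ ξ' ∈ X, ξ < ξ' ∧ ¬ ∀ ζ ≤ ξ, u ξ ζ = u ξ' ζ) :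
    SouslinTreeExists := by
  classical
  refine ⟨Node u, inferInstance, ?_, ?_, ?_, ?_⟩
  · intro t
    refine ⟨(e.symm t.lev).1, (e.symm t.lev).2, ⟨?_⟩⟩
    have i1 := t.iioIso
    have i2 := iioIsoOfIso e.symm t.lev
    have i3 := iioIioIso (e.symm t.lev)
    exact (i1.trans i2).trans i3
  · intro α hα
    set β : Ω := e ⟨α, hα⟩ with hβ
    let t : Node u := ⟨(β, fun ζ => if ζ < β then u β ζ else false), β, le_rfl, fun ζ => rfl⟩
    refine ⟨t, ⟨?_⟩⟩
    have i1 : Set.Iio t ≃o Set.Iio β := t.iioIso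
    have i2 := iioIsoOfIso e ⟨α, hα⟩
    have i3 := iioIioIso (⟨α, hα⟩ : Set.Iio (ω_ 1 : Ordinal.{0}))
    exact (i1.trans i2.symm).trans i3
  · -- chains
    intro C hC
    by_contra hcount
    have hlevinj : Set.InjOn Node.lev C := by
      intro p hp q hq he
      rcases hC.total hp hq with h | h
      · exact Node.ext' he h.2
      · exact (Node.ext' he.symm h.2).symm
    have hL : ¬ (Node.lev '' C).Countable := by
      intro h
      exact hcount (Set.countable_of_injective_of_countable_image hlevinj h)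
    have hunb : ∀ δ, ∃ p ∈ C, δ < p.lev := by
      intro δ
      obtain ⟨_, ⟨p, hp, rfl⟩, hlt⟩ := unbounded_of_uncountable hΩ hL δ
      exact ⟨p, hp, hlt⟩
    choose P hPC hPlt using hunb
    set b : Ω → Bool := fun ζ => (P ζ).val ζ with hb
    have hbval : ∀ p ∈ C, ∀ ζ < p.lev, p.val ζ = b ζ := by
      intro p hp ζ hζ
      rcases hC.total hp (hPC ζ) with h | h
      · exact h.2 ζ hζ
      · exact (h.2 ζ (hPlt ζ)).symm
    have hX : {ξ | ∀ ζ ≤ ξ, u ξ ζ = b ζ}.Countable := by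
      by_contra hX
      obtain ⟨ξ, hξ, ξ', hξ', hlt, hno⟩ := hit2 _ hX
      exact hno (fun ζ hζ => (hξ ζ hζ).trans (hξ' ζ (hζ.trans hlt.le)).symm)
    obtain ⟨δ₀, hδ₀⟩ := bddAbove_of_countable' hΩ hunc hX
    have wf : WellFounded ((· < ·) : Ω → Ω → Prop) := IsWellFounded.wf
    have hΔex : ∀ ξ, ∃ d, (¬ ∀ ζ ≤ ξ, u ξ ζ = b ζ) →
        d ≤ ξ ∧ u ξ d ≠ b d ∧ ∀ ζ < d, u ξ ζ = b ζ := by
      intro ξ
      by_cases h : ∀ ζ ≤ ξ, u ξ ζ = b ζ
      · exact ⟨ξ, fun h' => absurd h h'⟩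
      · have hne : {d | d ≤ ξ ∧ u ξ d ≠ b d}.Nonempty := by
          push Not at h
          obtain ⟨d, h1, h2⟩ := h
          exact ⟨d, h1, h2⟩
        refine ⟨wf.min _ hne, fun _ => ?_⟩
        have hm := wf.min_mem _ hne
        refine ⟨hm.1, hm.2, fun ζ hζ => ?_⟩
        by_contra hc
        exact wf.not_lt_min {d | d ≤ ξ ∧ u ξ d ≠ b d} ⟨hζ.le.trans hm.1, hc⟩ hζ
    choose Δ hΔ using hΔex
    obtain ⟨Z, hZunc, hZP, hZ⟩ := exists_thin hΩ hunc (fun ξ => ¬ ∀ ζ ≤ ξ, u ξ ζ = b ζ) Δ (by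
      intro δ
      have hp := hPC (max δ δ₀)
      have hlt := hPlt (max δ δ₀)
      set p := P (max δ δ₀) with hpdef
      have hξ : max δ δ₀ < p.idx := hlt.trans_le p.lev_le
      have hnot : ¬ ∀ ζ ≤ p.idx, u p.idx ζ = b ζ := by
        intro hall
        exact absurd (hδ₀ p.idx hall) (not_le.2 ((le_max_right _ _).trans_lt hξ))
      refine ⟨p.idx, hnot, (le_max_left _ _).trans_lt hξ, ?_⟩
      have hge : p.lev ≤ Δ p.idx := by
        by_contra hc
        push Not at hc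
        apply (hΔ p.idx hnot).2.1
        rw [← hbval p hp _ hc, p.val_lt hc]
      exact ((le_max_left _ _).trans_lt hlt).trans_le hge)
    obtain ⟨ξ, hξ, ξ', hξ', hlt, hall⟩ := hit1 Z hZunc
    have h1 := hΔ ξ (hZP ξ hξ)
    have h2 := hΔ ξ' (hZP ξ' hξ')
    have h3 := hZ ξ hξ ξ' hξ' hlt
    apply h1.2.1
    rw [hall _ h1.1]
    exact h2.2.2 _ (h1.1.trans_lt h3)
  · -- antichains
    intro C hC
    by_contra hcount
    have hcomp : ∀ p q : Node u, p.idx ≤ q.idx → (∀ ζ ≤ p.idx, u p.idx ζ = u q.idx ζ) →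
        p ≤ q ∨ q ≤ p := by
      intro p q _ hall
      rcases le_total p.lev q.lev with h | h
      · left
        refine ⟨h, fun ζ hζ => ?_⟩
        rw [p.val_lt hζ, q.val_lt (hζ.trans_le h)]
        exact hall ζ (hζ.le.trans p.lev_le)
      · right
        refine ⟨h, fun ζ hζ => ?_⟩
        rw [q.val_lt hζ, p.val_lt (hζ.trans_le h)]
        exact (hall ζ ((hζ.le.trans h).trans p.lev_le)).symm
    have hinj : Set.InjOn Node.idx C := by
      intro p hp q hq he
      by_contra hne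
      rcases hcomp p q he.le (fun ζ _ => by rw [he]) with h | h
      · exact hC hp hq hne h
      · exact hC hq hp (Ne.symm hne) h
    have hX : ¬ (Node.idx '' C).Countable := by
      intro h
      exact hcount (Set.countable_of_injective_of_countable_image hinj h)
    obtain ⟨_, ⟨p, hp, rfl⟩, _, ⟨q, hq, rfl⟩, hlt, hall⟩ := hit1 _ hX
    have hne : p ≠ q := by
      rintro rfl
      exact lt_irrefl _ hlt
    rcases hcomp p q hlt.le hall with h | h
    · exact hC hp hq hne h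
    · exact hC hq hp (Ne.symm hne) h

end Pool.Agent.Work.MP_e99821_lc
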