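import Mathlib
import Pool.Agent.Work.MP_e99821_lc.Tree
import Pool.Agent.Work.MP_e99821_lc.Phi

/-!
# The recursive construction of a tree which seals the guessed dense open sets
-/

namespace Pool.Agent.Work.MP_e99821_lc

section Defs

variable {Ω : Type} [LinearOrder Ω]

/-- Node candidates: a level together with a function. -/
abbrev Nd (Ω : Type) : Type := Ω × (Ω → ℕ)

/-- The extension order of node candidates. -/
def Ext (t u : Nd Ω) : Prop := t.1 ≤ u.1 ∧ ∀ ζ ≤ t.1, t.2 ζ = u.2 ζ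

/-- The nodes of levels below `α`. -/
def Tb (L : Ω → Set (Ω → ℕ)) (α : Ω) : Set (Nd Ω) := {t | t.1 < α ∧ t.2 ∈ L t.1}

/-- The restriction of a function to `Iic β`. -/
def cut (f : Ω → ℕ) (β : Ω) : Ω → ℕ := fun ζ => if ζ ≤ β then f ζ else 0

/-- The data built at a level: the level and a family of progressive maps below. -/
abbrev Col (Ω : Type) : Type := Set (Ω → ℕ) × (Ω → Nd Ω → Nd Ω)

theorem Ext.refl (t : Nd Ω) : Ext t t := ⟨le_rfl, fun _ _ => rfl⟩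

theorem Ext.trans {t u v : Nd Ω} (h : Ext t u) (h' : Ext u v) : Ext t v :=
  ⟨h.1.trans h'.1, fun ζ hζ => (h.2 ζ hζ).trans (h'.2 ζ (hζ.trans h.1))⟩

theorem Tb_congr {L L' : Ω → Set (Ω → ℕ)} {α : Ω} (h : ∀ β < α, L β = L' β) :
    Tb L α = Tb L' α := by
  ext t
  constructor
  · rintro ⟨h1, h2⟩
    exact ⟨h1, by rw [← h _ h1]; exact h2⟩
  · rintro ⟨h1, h2⟩
    exact ⟨h1, by rw [h _ h1]; exact h2⟩

theorem Tb_mono {L : Ω → Set (Ω → ℕ)} {α β : Ω} (h : α ≤ β) : Tb L α ⊆ Tb L β :=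
  fun _ ht => ⟨ht.1.trans_le h, ht.2⟩

/-- The requirements on the data at level `α`. -/
structure GoodB (q : Ω → Ω × Ω) (A : Ω → Set Ω) (C : Ω → Col Ω) (α : Ω) (x : Col Ω) : Prop where
  countable : x.1.Countable
  supp : ∀ f ∈ x.1, ∀ ζ, α < ζ → f ζ = 0
  cut_mem : ∀ f ∈ x.1, ∀ β < α, cut f β ∈ (C β).1
  nonempty : x.1.Nonempty
  extend : ∀ t ∈ Tb (fun β => (C β).1) α, ∀ d : ℕ,
    ∃ f ∈ x.1, (∀ ζ ≤ t.1, t.2 ζ = f ζ) ∧ f α = d
  sealing : (Set.Iio α).Nonempty → (∀ β < α, ∃ π ∈ A α, β < (q π).1 ∧ (q π).1 < α) →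
    ∀ f ∈ x.1, ∃ π ∈ A α, (q π).1 < α ∧ ∃ t ∈ Tb (fun β => (C β).1) (q π).1,
      Ext ((C (q π).1).2 (q π).2 t) (α, f)
  prog : ∀ i, ∀ t ∈ Tb (fun β => (C β).1) α, x.2 i t ∈ Tb (fun β => (C β).1) α ∧ Ext t (x.2 i t)
  guess : ∀ U : Set (Nd Ω), (∀ t ∈ Tb (fun β => (C β).1) α, ∃ u ∈ U,
      u ∈ Tb (fun β => (C β).1) α ∧ Ext t u) →
    (∀ u ∈ U, ∀ v ∈ Tb (fun β => (C β).1) α, Ext u v → v ∈ U) →
      ∃ i, ∀ t ∈ Tb (fun β => (C β).1) α, x.2 i t ∈ U

theorem goodB_congr {q : Ω → Ω × Ω} {A : Ω → Set Ω} {C C' : Ω → Col Ω} {α : Ω} {x : Col Ω}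
    (h : ∀ β < α, C β = C' β) (hx : GoodB q A C α x) : GoodB q A C' α x := by
  have hT : Tb (fun β => (C β).1) α = Tb (fun β => (C' β).1) α :=
    Tb_congr (fun β hβ => by rw [h β hβ])
  refine ⟨hx.countable, hx.supp, ?_, hx.nonempty, ?_, ?_, ?_, ?_⟩
  · intro f hf β hβ
    rw [← h β hβ]
    exact hx.cut_mem f hf β hβ
  · rw [← hT]
    exact hx.extend
  · intro h1 h2 f hf
    obtain ⟨π, hπ, hlt, t, ht, hE⟩ := hx.sealing h1 h2 f hf
    refine ⟨π, hπ, hlt, t, ?_, ?_⟩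
    · rw [← Tb_congr (L := fun β => (C β).1)
        (fun β hβ => by rw [h β (hβ.trans hlt)])]
      exact ht
    · rw [← h _ hlt]
      exact hE
  · rw [← hT]
    exact hx.prog
  · rw [← hT]
    exact hx.guess

end Defs

section Branch

variable {Ω : Type} [LinearOrder Ω] {q : Ω → Ω × Ω} {A : Ω → Set Ω} {C : Ω → Col Ω} {α : Ω}

theorem cut_cut (f : Ω → ℕ) {β γ : Ω} (h : γ ≤ β) : cut (cut f β) γ = cut f γ := by
  funext ζ
  unfold cut
  by_cases hζ : ζ ≤ γ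
  · rw [if_pos hζ, if_pos hζ, if_pos (hζ.trans h)]
  · rw [if_neg hζ, if_neg hζ]

theorem cut_eq_self {f : Ω → ℕ} {β : Ω} (h : ∀ ζ, β < ζ → f ζ = 0) : cut f β = f := by
  funext ζ
  unfold cut
  by_cases hζ : ζ ≤ β
  · rw [if_pos hζ]
  · rw [if_neg hζ, h ζ (not_le.1 hζ)]

theorem cut_congr {f g : Ω → ℕ} {β : Ω} (h : ∀ ζ ≤ β, f ζ = g ζ) : cut f β = cut g β := by
  funext ζ
  unfold cut
  by_cases hζ : ζ ≤ β
  · rw [if_pos hζ, if_pos hζ, h ζ hζ]
  · rw [if_neg hζ, if_neg hζ]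

/-- Cofinal branches through given nodes. -/
theorem exists_branch (hc : (Set.Iio α).Countable) (hC : ∀ β < α, GoodB q A C β (C β))
    (s : Nd Ω) (hs : s ∈ Tb (fun β => (C β).1) α) (d : ℕ) :
    ∃ f : Ω → ℕ, (∀ ζ, α < ζ → f ζ = 0) ∧ f α = d ∧ (∀ β < α, cut f β ∈ (C β).1) ∧
      Ext s (α, f) := by
  classical
  obtain ⟨e, he⟩ := hc.exists_eq_range ⟨s.1, hs.1⟩
  have heα : ∀ n, e n < α := fun n => by
    have : e n ∈ Set.Iio α := by rw [he]; exact ⟨n, rfl⟩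
    exact this
  set g : ℕ → Ω := fun n => max s.1 (partialSups e n) with hg
  have hgm : Monotone g := fun a b hab => max_le_max le_rfl ((partialSups e).monotone hab)
  have hps : ∀ n, partialSups e n < α := by
    intro n
    induction n with
    | zero => simpa using heα 0
    | succ n ih =>
      rw [partialSups_add_one]
      exact max_lt ih (heα _)
  have hgα : ∀ n, g n < α := fun n => max_lt hs.1 (hps n)
  have hcof : ∀ a < α, ∃ n, a ≤ g n := by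
    intro a ha
    have : a ∈ Set.range e := by rw [← he]; exact ha
    obtain ⟨n, rfl⟩ := this
    exact ⟨n, (le_partialSups e n).trans (le_max_right _ _)⟩
  have hsg : s.1 ≤ g 0 := le_max_left _ _
  -- one step
  have hstep : ∀ (β γ : Ω), β ≤ γ → γ < α → ∀ f ∈ (C β).1, ∃ f' ∈ (C γ).1, ∀ ζ ≤ β, f ζ = f' ζ := by
    intro β γ hβγ hγ f hf
    rcases hβγ.eq_or_lt with h | h
    · subst h
      exact ⟨f, hf, fun _ _ => rfl⟩
    · obtain ⟨f', hf', h1, _⟩ := (hC γ hγ).extend (β, f) ⟨h, hf⟩ 0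
      exact ⟨f', hf', h1⟩
  obtain ⟨f₀, hf₀, hf₀s⟩ := hstep s.1 (g 0) hsg (hgα 0) s.2 hs.2
  have hsub : ∀ n, ∀ f : {f // f ∈ (C (g n)).1}, ∃ f' : {f // f ∈ (C (g (n + 1))).1},
      ∀ ζ ≤ g n, f.1 ζ = f'.1 ζ := by
    intro n f
    obtain ⟨f', hf', h⟩ := hstep (g n) (g (n + 1)) (hgm (Nat.le_succ n)) (hgα _) f.1 f.2
    exact ⟨⟨f', hf'⟩, h⟩
  choose nx hnx using hsub
  let F : ∀ n, {f // f ∈ (C (g n)).1} := fun n => Nat.rec ⟨f₀, hf₀⟩ (fun n f => nx n f) n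
  have hF0 : (F 0).1 = f₀ := rfl
  have hFs : ∀ n, ∀ ζ ≤ g n, (F n).1 ζ = (F (n + 1)).1 ζ := fun n => hnx n (F n)
  have hFm : ∀ n m, n ≤ m → ∀ ζ ≤ g n, (F n).1 ζ = (F m).1 ζ := by
    intro n m hnm
    induction m, hnm using Nat.le_induction with
    | base => intro ζ _; rfl
    | succ m hm ih =>
      intro ζ hζ
      rw [ih ζ hζ]
      exact hFs m ζ (hζ.trans (hgm hm))
  set f : Ω → ℕ := fun ζ => if h : ∃ n, ζ ≤ g n then (F h.choose).1 ζ else if ζ = α then d else 0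
    with hf
  have hfF : ∀ n, ∀ ζ ≤ g n, f ζ = (F n).1 ζ := by
    intro n ζ hζ
    have hex : ∃ n, ζ ≤ g n := ⟨n, hζ⟩
    have h1 : f ζ = (F hex.choose).1 ζ := by simp only [hf, dif_pos hex]
    rw [h1]
    rcases le_total hex.choose n with h | h
    · exact hFm _ _ h ζ hex.choose_spec
    · exact (hFm _ _ h ζ hζ).symm
  have hno : ∀ ζ, α ≤ ζ → ¬ ∃ n, ζ ≤ g n := by
    rintro ζ hζ ⟨n, hn⟩
    exact absurd (hζ.trans hn) (not_le.2 (hgα n))
  refine ⟨f, ?_, ?_, ?_, ?_⟩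
  · intro ζ hζ
    simp only [hf, dif_neg (hno ζ hζ.le), if_neg hζ.ne']
  · simp only [hf]
    rw [dif_neg (hno α le_rfl)]
    simp
  · intro β hβ
    obtain ⟨n, hn⟩ := hcof β hβ
    have h1 : cut f β = cut (F n).1 β := cut_congr (fun ζ hζ => hfF n ζ (hζ.trans hn))
    rw [h1]
    rcases hn.eq_or_lt with h | h
    · have h2 : cut (F n).1 β = (F n).1 := cut_eq_self (fun ζ hζ => by
        rw [h] at hζ
        exact (hC (g n) (hgα n)).supp _ (F n).2 ζ hζ)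
      rw [h2, h]
      exact (F n).2
    · exact (hC (g n) (hgα n)).cut_mem _ (F n).2 β h
  · refine ⟨hs.1.le, fun ζ hζ => ?_⟩
    show s.2 ζ = f ζ
    rw [hf₀s ζ hζ, hfF 0 ζ (hζ.trans hsg), hF0]

theorem Tb_countable (hc : (Set.Iio α).Countable) (hC : ∀ β < α, GoodB q A C β (C β)) :
    (Tb (fun β => (C β).1) α).Countable := by
  have : Tb (fun β => (C β).1) α = ⋃ β ∈ Set.Iio α, (fun f => (β, f)) '' (C β).1 := by
    ext t
    simp only [Set.mem_iUnion, Set.mem_image]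
    constructor
    · rintro ⟨h1, h2⟩
      exact ⟨t.1, h1, t.2, h2, rfl⟩
    · rintro ⟨β, hβ, f, hf, rfl⟩
      exact ⟨hβ, hf⟩
  rw [this]
  exact hc.biUnion (fun β hβ => (hC β hβ).countable.image _)

end Branch

/-- Existence of the data at one level. -/
theorem exists_goodB {Ω : Type} [LinearOrder Ω] {q : Ω → Ω × Ω} {A : Ω → Set Ω} {C : Ω → Col Ω}
    {α : Ω} (hc : (Set.Iio α).Countable) (hC : ∀ β < α, GoodB q A C β (C β))
    {I J : Type} (p : Ω → I × J) (hp : Function.Surjective p)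
    (r : I → ℕ → ℕ) (hr : ¬ IsMeagre (Set.range r))
    (g : J → ℕ → ℕ) (hg : ∀ f : ℕ → ℕ, ∃ j, ∀ n, f n ≤ g j n) : ∃ x, GoodB q A C α x := by
  classical
  have hTc := Tb_countable hc hC
  obtain ⟨Φ, hΦ1, hΦ2⟩ := exists_phi (Tb (fun β => (C β).1) α) hTc Ext Ext.refl
    (fun _ _ _ h h' => h.trans h') r hr g hg
  have hprog : ∀ i, ∀ t ∈ Tb (fun β => (C β).1) α, Φ (p i) t ∈ Tb (fun β => (C β).1) α ∧
      Ext t (Φ (p i) t) := fun i t ht => hΦ1 (p i) t ht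
  have hguess : ∀ U : Set (Nd Ω), (∀ t ∈ Tb (fun β => (C β).1) α, ∃ u ∈ U,
      u ∈ Tb (fun β => (C β).1) α ∧ Ext t u) →
    (∀ u ∈ U, ∀ v ∈ Tb (fun β => (C β).1) α, Ext u v → v ∈ U) →
      ∃ i, ∀ t ∈ Tb (fun β => (C β).1) α, Φ (p i) t ∈ U := by
    intro U h1 h2
    obtain ⟨ij, hij⟩ := hΦ2 U h1 h2
    obtain ⟨i, rfl⟩ := hp ij
    exact ⟨i, hij⟩
  rcases (Set.Iio α).eq_empty_or_nonempty with he | hne
  · have hnlt : ∀ β, ¬ β < α := fun β hβ => by
      have : β ∈ Set.Iio α := hβ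
      rw [he] at this
      exact this
    refine ⟨({f | ∀ ζ, α < ζ → f ζ = 0}, fun i t => Φ (p i) t), ?_, ?_, ?_, ?_, ?_, ?_, hprog,
      hguess⟩
    · have : {f : Ω → ℕ | ∀ ζ, α < ζ → f ζ = 0} ⊆
          Set.range (fun (d : ℕ) (ζ : Ω) => if ζ = α then d else 0) := by
        intro f hf
        refine ⟨f α, ?_⟩
        funext ζ
        by_cases hζ : ζ = α
        · simp only [hζ, if_true]
        · simp only [hζ, if_false]
          rcases lt_or_gt_of_ne hζ with h | h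
          · exact absurd h (hnlt ζ)
          · exact (hf ζ h).symm
      exact (Set.countable_range _).mono this
    · intro f hf
      exact hf
    · intro f _ β hβ
      exact absurd hβ (hnlt β)
    · exact ⟨fun _ => 0, fun _ _ => rfl⟩
    · intro t ht
      exact absurd ht.1 (hnlt _)
    · intro h
      rw [he] at h
      exact absurd h Set.not_nonempty_empty
  · -- the starting points of the branches
    have hstart : ∀ t : Nd Ω, ∃ s : Nd Ω, t ∈ Tb (fun β => (C β).1) α →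
        s ∈ Tb (fun β => (C β).1) α ∧ Ext t s ∧
        ((∀ β < α, ∃ π ∈ A α, β < (q π).1 ∧ (q π).1 < α) →
          ∃ π ∈ A α, (q π).1 < α ∧ t ∈ Tb (fun β => (C β).1) (q π).1 ∧
            s = (C (q π).1).2 (q π).2 t) := by
      intro t
      by_cases ht : t ∈ Tb (fun β => (C β).1) α
      · by_cases hG : ∀ β < α, ∃ π ∈ A α, β < (q π).1 ∧ (q π).1 < α
        · obtain ⟨π, hπ, h1, h2⟩ := hG t.1 ht.1
          have htT : t ∈ Tb (fun β => (C β).1) (q π).1 := ⟨h1, ht.2⟩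
          have h3 := (hC _ h2).prog (q π).2 t htT
          exact ⟨(C (q π).1).2 (q π).2 t, fun _ => ⟨Tb_mono h2.le h3.1, h3.2,
            fun _ => ⟨π, hπ, h2, htT, rfl⟩⟩⟩
        · exact ⟨t, fun _ => ⟨ht, Ext.refl t, fun h => absurd h hG⟩⟩
      · exact ⟨t, fun h => absurd h ht⟩
    choose s hs using hstart
    have hbr : ∀ (t : Nd Ω) (d : ℕ), ∃ f : Ω → ℕ, t ∈ Tb (fun β => (C β).1) α →
        (∀ ζ, α < ζ → f ζ = 0) ∧ f α = d ∧ (∀ β < α, cut f β ∈ (C β).1) ∧ Ext (s t) (α, f) := by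
      intro t d
      by_cases ht : t ∈ Tb (fun β => (C β).1) α
      · obtain ⟨f, hf⟩ := exists_branch hc hC (s t) (hs t ht).1 d
        exact ⟨f, fun _ => hf⟩
      · exact ⟨fun _ => 0, fun h => absurd h ht⟩
    choose b hb using hbr
    refine ⟨({f | ∃ t ∈ Tb (fun β => (C β).1) α, ∃ d, f = b t d}, fun i t => Φ (p i) t),
      ?_, ?_, ?_, ?_, ?_, ?_, hprog, hguess⟩
    · have : {f | ∃ t ∈ Tb (fun β => (C β).1) α, ∃ d, f = b t d} =
          ⋃ t ∈ Tb (fun β => (C β).1) α, Set.range (b t) := by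
        ext f
        simp only [Set.mem_iUnion, Set.mem_range, exists_prop]
        constructor
        · rintro ⟨t, ht, d, rfl⟩
          exact ⟨t, ht, d, rfl⟩
        · rintro ⟨t, ht, d, rfl⟩
          exact ⟨t, ht, d, rfl⟩
      show {f | ∃ t ∈ Tb (fun β => (C β).1) α, ∃ d, f = b t d}.Countable
      rw [this]
      exact hTc.biUnion (fun t _ => Set.countable_range _)
    · rintro f ⟨t, ht, d, rfl⟩
      exact (hb t d ht).1
    · rintro f ⟨t, ht, d, rfl⟩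
      exact (hb t d ht).2.2.1
    · obtain ⟨β, hβ⟩ := hne
      obtain ⟨f, hf⟩ := (hC β hβ).nonempty
      exact ⟨b (β, f) 0, (β, f), ⟨hβ, hf⟩, 0, rfl⟩
    · intro t ht d
      refine ⟨b t d, ⟨t, ht, d, rfl⟩, ?_, (hb t d ht).2.1⟩
      exact ((hs t ht).2.1.trans (hb t d ht).2.2.2).2
    · rintro _ hG f ⟨t, ht, d, rfl⟩
      obtain ⟨π, hπ, hlt, htT, hst⟩ := (hs t ht).2.2 hG
      refine ⟨π, hπ, hlt, t, htT, ?_⟩
      rw [← hst]
      exact (hb t d ht).2.2.2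

/-- The recursive construction. -/
theorem exists_col {Ω : Type} [LinearOrder Ω] [WellFoundedLT Ω]
    (hΩ : ∀ a : Ω, (Set.Iio a).Countable) (q : Ω → Ω × Ω) (A : Ω → Set Ω)
    {I J : Type} (p : Ω → I × J) (hp : Function.Surjective p)
    (r : I → ℕ → ℕ) (hr : ¬ IsMeagre (Set.range r))
    (g : J → ℕ → ℕ) (hg : ∀ f : ℕ → ℕ, ∃ j, ∀ n, f n ≤ g j n) :
    ∃ C : Ω → Col Ω, ∀ α, GoodB q A C α (C α) := by
  classical
  have wf : WellFounded ((· < ·) : Ω → Ω → Prop) := IsWellFounded.wf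
  let F : ∀ α : Ω, (∀ β, β < α → Col Ω) → Col Ω := fun α rec =>
    if h : ∃ x, GoodB q A (fun β => if hβ : β < α then rec β hβ else (∅, fun _ t => t)) α x
    then h.choose else (∅, fun _ t => t)
  let C : Ω → Col Ω := wf.fix F
  have hC : ∀ α, C α = F α (fun β _ => C β) := fun α => wf.fix_eq F α
  refine ⟨C, ?_⟩
  intro α
  induction α using wf.induction with
  | _ α ih =>
    obtain ⟨x, hx⟩ := exists_goodB (hΩ α) ih p hp r hr g hg
    have h1 : ∃ x, GoodB q A (fun β => if hβ : β < α then C β else (∅, fun _ t => t)) α x :=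
      ⟨x, goodB_congr (fun β hβ => by simp [hβ]) hx⟩
    have h2 : C α = h1.choose := by
      rw [hC α]
      simp only [F]
      rw [dif_pos h1]
    have h3 := h1.choose_spec
    rw [← h2] at h3
    exact goodB_congr (fun β hβ => by simp [hβ]) h3

end Pool.Agent.Work.MP_e99821_lc
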