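import Mathlib

/-!
# A coherent function `ρ : [Ω]² → ℕ`

`Ω` is a well ordered set all of whose proper initial segments are countable.  We build
`ρ : Ω → Ω → ℕ` such that, for `α < β < γ`,
(a) `ρ α γ ≤ max (ρ α β) (ρ β γ)`, (b) `ρ α β ≤ max (ρ α γ) (ρ β γ)`,
(c) the set of `α < γ` with `ρ α γ ≤ n` is finite.
-/

namespace Pool.Agent.Work.MP_e99821_lc

variable {Ω : Type*} [LinearOrder Ω]

/-- `f` is a possible column at `γ` for the function `R` (only the values `R a b`, `a < b < γ`,
matter). -/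
def GoodCol (R : Ω → Ω → ℕ) (γ : Ω) (f : Ω → ℕ) : Prop :=
  (∀ a b, a < b → b < γ → f a ≤ max (R a b) (f b)) ∧
  (∀ a b, a < b → b < γ → R a b ≤ max (f a) (f b)) ∧
  ∀ n, {a | a < γ ∧ f a ≤ n}.Finite

theorem goodCol_congr {R R' : Ω → Ω → ℕ} {γ : Ω} {f : Ω → ℕ}
    (h : ∀ a b, a < b → b < γ → R a b = R' a b) (hf : GoodCol R γ f) : GoodCol R' γ f := by
  refine ⟨fun a b hab hb => ?_, fun a b hab hb => ?_, hf.2.2⟩
  · rw [← h a b hab hb]; exact hf.1 a b hab hb
  · rw [← h a b hab hb]; exact hf.2.1 a b hab hb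

theorem exists_goodCol (R : Ω → Ω → ℕ) (γ : Ω) (hc : (Set.Iio γ).Countable)
    (hR : ∀ β < γ, GoodCol R β (fun a => R a β)) : ∃ f, GoodCol R γ f := by
  classical
  rcases (Set.Iio γ).eq_empty_or_nonempty with he | hne
  · refine ⟨fun _ => 0, ?_, ?_, ?_⟩
    · intro a b _ hb
      exact absurd (show b ∈ Set.Iio γ from hb) (by rw [he]; exact Set.notMem_empty b)
    · intro a b _ hb
      exact absurd (show b ∈ Set.Iio γ from hb) (by rw [he]; exact Set.notMem_empty b)
    · intro n
      have : {a | a < γ ∧ 0 ≤ n} ⊆ Set.Iio γ := fun a ha => ha.1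
      rw [he] at this
      exact (Set.finite_empty).subset this
  obtain ⟨e, he⟩ := hc.exists_eq_range hne
  have heγ : ∀ n, e n < γ := fun n => by
    have : e n ∈ Set.Iio γ := by rw [he]; exact ⟨n, rfl⟩
    exact this
  set g : ℕ → Ω := fun n => partialSups e n with hg
  have hgm : Monotone g := (partialSups e).monotone
  have heg : ∀ n, e n ≤ g n := fun n => le_partialSups e n
  have hgγ : ∀ n, g n < γ := by
    intro n
    induction n with
    | zero => simpa [hg] using heγ 0
    | succ n ih =>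
      have : g (n + 1) = g n ⊔ e (n + 1) := by
        simp [hg, partialSups_add_one]
      rw [this]
      exact max_lt ih (heγ _)
  have hcof : ∀ a < γ, ∃ n, a ≤ g n := by
    intro a ha
    have : a ∈ Set.range e := by rw [← he]; exact ha
    obtain ⟨n, rfl⟩ := this
    exact ⟨n, heg n⟩
  set r' : Ω → Ω → ℕ := fun a b => if a < b then R a b else 0 with hr'
  set K : ℕ → ℕ := fun n =>
    (Finset.range (n + 1)).sup (fun i => (Finset.range (n + 1)).sup (fun j => r' (g i) (g j)))
    with hK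
  have hKle : ∀ n i j, i ≤ n → j ≤ n → r' (g i) (g j) ≤ K n := by
    intro n i j hi hj
    have h1 : r' (g i) (g j) ≤ (Finset.range (n + 1)).sup (fun j => r' (g i) (g j)) :=
      Finset.le_sup (f := fun j => r' (g i) (g j)) (Finset.mem_range.2 (by omega))
    have h2 : (Finset.range (n + 1)).sup (fun j => r' (g i) (g j)) ≤ K n :=
      Finset.le_sup (f := fun i => (Finset.range (n + 1)).sup (fun j => r' (g i) (g j)))
        (Finset.mem_range.2 (by omega))
    exact h1.trans h2
  set Φ : Ω → ℕ → Prop := fun a N => ∃ n ≤ N, K n ≤ N ∧ a ≤ g n ∧ r' a (g n) ≤ N with hΦ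
  have hmono : ∀ a N M, N ≤ M → Φ a N → Φ a M := by
    rintro a N M hNM ⟨n, h1, h2, h3, h4⟩
    exact ⟨n, h1.trans hNM, h2.trans hNM, h3, h4.trans hNM⟩
  have hex : ∀ a < γ, ∃ N, Φ a N := by
    intro a ha
    obtain ⟨n, hn⟩ := hcof a ha
    exact ⟨max n (max (K n) (r' a (g n))), n, le_max_left _ _,
      (le_max_left _ _).trans (le_max_right _ _), hn, (le_max_right _ _).trans (le_max_right _ _)⟩
  set f : Ω → ℕ := fun a => if h : ∃ N, Φ a N then Nat.find h else 0 with hf
  have hfΦ : ∀ a < γ, Φ a (f a) := by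
    intro a ha
    have h := hex a ha
    have : f a = Nat.find h := by simp only [hf, dif_pos h]
    rw [this]
    exact Nat.find_spec h
  have hfle : ∀ a N, a < γ → Φ a N → f a ≤ N := by
    intro a N ha hN
    have h := hex a ha
    have : f a = Nat.find h := by simp only [hf, dif_pos h]
    rw [this]
    exact Nat.find_min' h hN
  have hr'lt : ∀ a b, a < b → r' a b = R a b := fun a b h => by simp [hr', h]
  have hr'nlt : ∀ a b, ¬ a < b → r' a b = 0 := fun a b h => by simp [hr', h]
  have hstep : ∀ a n k N, n ≤ k → K k ≤ N → a ≤ g n → r' a (g n) ≤ N → r' a (g k) ≤ N := by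
    intro a n k N hnk hKk han hr
    rcases (hgm hnk).eq_or_lt with h | h
    · rw [← h]; exact hr
    · rcases han.eq_or_lt with h' | h'
      · rw [h']; exact (hKle k n k hnk le_rfl).trans hKk
      · rw [hr'lt _ _ (h'.trans h)]
        refine ((hR (g k) (hgγ k)).1 a (g n) h' h).trans (max_le ?_ ?_)
        · rw [← hr'lt _ _ h']; exact hr
        · show R (g n) (g k) ≤ N
          rw [← hr'lt _ _ h]; exact (hKle k n k hnk le_rfl).trans hKk
  refine ⟨f, ?_, ?_, ?_⟩
  · intro a b hab hb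
    apply hfle a _ (hab.trans hb)
    obtain ⟨n, h1, h2, h3, h4⟩ := hfΦ b hb
    refine ⟨n, h1.trans (le_max_right _ _), h2.trans (le_max_right _ _), hab.le.trans h3, ?_⟩
    rw [hr'lt _ _ (hab.trans_le h3)]
    rcases h3.eq_or_lt with h | h
    · rw [← h]; exact le_max_left _ _
    · refine ((hR (g n) (hgγ n)).1 a b hab h).trans (max_le_max le_rfl ?_)
      show R b (g n) ≤ f b
      rw [← hr'lt _ _ h]; exact h4
  · intro a b hab hb
    set N := max (f a) (f b) with hN
    obtain ⟨n, h1, h2, h3, h4⟩ := hmono a (f a) N (le_max_left _ _) (hfΦ a (hab.trans hb))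
    obtain ⟨m, k1, k2, k3, k4⟩ := hmono b (f b) N (le_max_right _ _) (hfΦ b hb)
    obtain ⟨k, hnk, hmk, hKk⟩ : ∃ k, n ≤ k ∧ m ≤ k ∧ K k ≤ N := by
      rcases le_total n m with h | h
      · exact ⟨m, h, le_rfl, k2⟩
      · exact ⟨n, le_rfl, h, h2⟩
    have ha' := hstep a n k N hnk hKk h3 h4
    have hb' := hstep b m k N hmk hKk k3 k4
    have hbk : b ≤ g k := k3.trans (hgm hmk)
    rcases hbk.eq_or_lt with h | h
    · rw [h] at hab ⊢
      rw [← hr'lt _ _ hab]; exact ha'
    · refine ((hR (g k) (hgγ k)).2.1 a b hab h).trans (max_le ?_ ?_)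
      · show R a (g k) ≤ N
        rw [← hr'lt _ _ (hab.trans h)]; exact ha'
      · show R b (g k) ≤ N
        rw [← hr'lt _ _ h]; exact hb'
  · intro N
    have hsub : {a | a < γ ∧ f a ≤ N} ⊆
        ⋃ n ∈ Finset.range (N + 1), ({a | a < g n ∧ R a (g n) ≤ N} ∪ {g n}) := by
      rintro a ⟨ha, hfa⟩
      obtain ⟨n, h1, h2, h3, h4⟩ := hmono a _ N hfa (hfΦ a ha)
      simp only [Set.mem_iUnion]
      refine ⟨n, Finset.mem_range.2 (by omega), ?_⟩
      rcases h3.eq_or_lt with h | h
      · right; exact h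
      · left; exact ⟨h, by rw [← hr'lt _ _ h]; exact h4⟩
    refine Set.Finite.subset ?_ hsub
    refine Set.Finite.biUnion (Finset.finite_toSet _) (fun n _ => ?_)
    exact ((hR (g n) (hgγ n)).2.2 N).union (Set.finite_singleton _)

/-- Existence of the coherent function. -/
theorem exists_rho [WellFoundedLT Ω] (hΩ : ∀ a : Ω, (Set.Iio a).Countable) :
    ∃ ρ : Ω → Ω → ℕ, ∀ γ, GoodCol ρ γ (fun a => ρ a γ) := by
  classical
  have wf : WellFounded ((· < ·) : Ω → Ω → Prop) := IsWellFounded.wf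
  let F : ∀ γ : Ω, (∀ β, β < γ → (Ω → ℕ)) → (Ω → ℕ) := fun γ rec =>
    if h : ∃ f, GoodCol (fun a b => if hb : b < γ then rec b hb a else 0) γ f then h.choose
    else fun _ => 0
  let C : Ω → (Ω → ℕ) := wf.fix F
  have hC : ∀ γ, C γ = F γ (fun β _ => C β) := fun γ => wf.fix_eq F γ
  refine ⟨fun a b => C b a, ?_⟩
  intro γ
  induction γ using wf.induction with
  | _ γ ih =>
    have h0 : ∃ f, GoodCol (fun a b => C b a) γ f :=
      exists_goodCol _ γ (hΩ γ) (fun β hβ => ih β hβ)
    have h1 : ∃ f, GoodCol (fun a b => if hb : b < γ then C b a else 0) γ f := by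
      obtain ⟨f, hf⟩ := h0
      exact ⟨f, goodCol_congr (fun a b _ hb => by simp [hb]) hf⟩
    have h2 : C γ = h1.choose := by
      rw [hC γ]
      simp only [F]
      rw [dif_pos h1]
    have h3 := h1.choose_spec
    rw [← h2] at h3
    exact goodCol_congr (fun a b _ hb => by simp [hb]) h3

end Pool.Agent.Work.MP_e99821_lc
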