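import Mathlib
import Pool.Agent.Work.MP_e99821_lc.Rho

/-!
# Labels and the hitting lemma

From the coherent function `ρ` we build labels `nd ρ ζ N : List ℕ`, and for every
`c : List ℕ → Bool` the coherent family `u_ξ (ζ) = c (nd ζ (ρ ζ ξ))`, `ζ < ξ`, `u_ξ (ξ) = false`.
For every infinite set `A` of indices, the sets of those `c` such that some two indices of `A` have
comparable (respectively incomparable) functions are open and dense.
-/

namespace Pool.Agent.Work.MP_e99821_lc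

variable {Ω : Type*} [LinearOrder Ω]

/-- The number of `ξ < ζ` with `ρ ξ ζ ≤ N`. -/
noncomputable def lam (ρ : Ω → Ω → ℕ) (ζ : Ω) (N : ℕ) : ℕ := Set.ncard {ξ | ξ < ζ ∧ ρ ξ ζ ≤ N}

/-- The label of `ζ` at level `N`. -/
noncomputable def nd (ρ : Ω → Ω → ℕ) (ζ : Ω) (N : ℕ) : List ℕ :=
  (List.range (N + 1)).map (lam ρ ζ)

theorem nd_length (ρ : Ω → Ω → ℕ) (ζ : Ω) (N : ℕ) : (nd ρ ζ N).length = N + 1 := by
  simp [nd]

theorem nd_level {ρ : Ω → Ω → ℕ} {ζ ζ' : Ω} {N N' : ℕ} (h : nd ρ ζ N = nd ρ ζ' N') : N = N' := by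
  have := congrArg List.length h
  rw [nd_length, nd_length] at this
  omega

theorem nd_lam {ρ : Ω → Ω → ℕ} {ζ ζ' : Ω} {N : ℕ} (h : nd ρ ζ N = nd ρ ζ' N) :
    lam ρ ζ N = lam ρ ζ' N := by
  have h1 : (nd ρ ζ N)[N]'(by rw [nd_length]; omega) = lam ρ ζ N := by
    simp [nd]
  have h2 : (nd ρ ζ' N)[N]'(by rw [nd_length]; omega) = lam ρ ζ' N := by
    simp [nd]
  rw [← h1, ← h2]
  simp only [h]

theorem nd_take (ρ : Ω → Ω → ℕ) (ζ : Ω) {j N : ℕ} (h : j ≤ N) : nd ρ ζ j <+: nd ρ ζ N := by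
  have : nd ρ ζ j = (nd ρ ζ N).take (j + 1) := by
    unfold nd
    rw [← List.map_take, List.take_range]
    congr 2
    omega
  rw [this]
  exact List.take_prefix _ _

/-- The properties of the coherent function which we use. -/
structure Coh (ρ : Ω → Ω → ℕ) : Prop where
  a : ∀ {α β γ : Ω}, α < β → β < γ → ρ α γ ≤ max (ρ α β) (ρ β γ)
  b : ∀ {α β γ : Ω}, α < β → β < γ → ρ α β ≤ max (ρ α γ) (ρ β γ)
  fin : ∀ (γ : Ω) (n : ℕ), {α | α < γ ∧ ρ α γ ≤ n}.Finite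

theorem exists_coh [WellFoundedLT Ω] (hΩ : ∀ a : Ω, (Set.Iio a).Countable) :
    ∃ ρ : Ω → Ω → ℕ, Coh ρ := by
  obtain ⟨ρ, hρ⟩ := exists_rho hΩ
  exact ⟨ρ, fun {α β γ} h1 h2 => (hρ γ).1 α β h1 h2, fun {α β γ} h1 h2 => (hρ γ).2.1 α β h1 h2,
    fun γ n => (hρ γ).2.2 n⟩

section

variable {ρ : Ω → Ω → ℕ} (hρ : Coh ρ)

include hρ

theorem nd_ne {ζ ζ' : Ω} {N : ℕ} (h : ζ < ζ') (hN : ρ ζ ζ' ≤ N) : nd ρ ζ N ≠ nd ρ ζ' N := by
  intro he
  have h1 := nd_lam he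
  have hlt : lam ρ ζ N < lam ρ ζ' N := by
    unfold lam
    apply Set.ncard_lt_ncard _ (hρ.fin ζ' N)
    refine ⟨?_, ?_⟩
    · rintro ξ ⟨hξ, hr⟩
      exact ⟨hξ.trans h, (hρ.a hξ h).trans (max_le hr hN)⟩
    · intro hsub
      have : ζ ∈ {ξ | ξ < ζ ∧ ρ ξ ζ ≤ N} := hsub ⟨h, hN⟩
      exact lt_irrefl _ this.1
  omega

/-- Two points whose distances to a common point are at most `N` have different labels. -/
theorem nd_ne' {ζ ζ' ξ : Ω} {N : ℕ} (hne : ζ ≠ ζ') (h : ζ < ξ) (h' : ζ' < ξ) (hN : ρ ζ ξ ≤ N)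
    (hN' : ρ ζ' ξ ≤ N) : nd ρ ζ N ≠ nd ρ ζ' N := by
  rcases lt_or_gt_of_ne hne with hl | hl
  · exact nd_ne hρ hl ((hρ.b hl h').trans (max_le hN hN'))
  · exact (nd_ne hρ hl ((hρ.b hl h).trans (max_le hN' hN))).symm

theorem rho_eq_of_lt {ζ ξ ξ' : Ω} (h : ζ < ξ) (h' : ξ < ξ') (hr : ρ ξ ξ' < ρ ζ ξ) :
    ρ ζ ξ = ρ ζ ξ' := by
  have h1 := hρ.a h h'
  have h2 := hρ.b h h'
  rw [max_eq_left hr.le] at h1
  rcases le_max_iff.1 h2 with h3 | h3
  · exact le_antisymm h3 h1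
  · omega

theorem diff_finite {ξ ξ' : Ω} (h' : ξ < ξ') : {ζ | ζ < ξ ∧ ρ ζ ξ ≠ ρ ζ ξ'}.Finite := by
  refine (hρ.fin ξ (ρ ξ ξ')).subset ?_
  rintro ζ ⟨h1, h2⟩
  refine ⟨h1, ?_⟩
  by_contra h3
  exact h2 (rho_eq_of_lt hρ h1 h' (by omega))

end

/-- In an infinite family of partial functions with domains of bounded size and a finite set of
values there are two compatible members. -/
theorem exists_compatible {ι X V : Type*} [DecidableEq X] (val : ι → X → V) (W : Set V)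
    (hW : W.Finite) : ∀ (k : ℕ) (dom : ι → Finset X) (I : Set ι), I.Infinite →
    (∀ i ∈ I, (dom i).card ≤ k) → (∀ i ∈ I, ∀ x ∈ dom i, val i x ∈ W) →
    ∃ i ∈ I, ∃ j ∈ I, i ≠ j ∧ ∀ x, x ∈ dom i → x ∈ dom j → val i x = val j x := by
  classical
  intro k
  induction k with
  | zero =>
    intro dom I hI hcard _
    obtain ⟨i, hi⟩ := hI.nonempty
    obtain ⟨j, hj⟩ := (hI.sdiff (Set.finite_singleton i)).nonempty
    refine ⟨i, hi, j, hj.1, fun h => hj.2 (by simp [h]), fun x hx => ?_⟩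
    have : dom i = ∅ := Finset.card_eq_zero.1 (Nat.le_zero.1 (hcard i hi))
    rw [this] at hx
    exact absurd hx (Finset.notMem_empty x)
  | succ k ih =>
    intro dom I hI hcard hval
    by_contra hcon
    push Not at hcon
    obtain ⟨i₀, hi₀⟩ := hI.nonempty
    have hI' : (I \ {i₀}).Infinite := hI.sdiff (Set.finite_singleton i₀)
    have hcover : I \ {i₀} ⊆ ⋃ x ∈ dom i₀, ⋃ v ∈ W, {i | i ∈ I ∧ x ∈ dom i ∧ val i x = v} := by
      rintro i ⟨hi, hne⟩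
      obtain ⟨x, hx0, hxi, _⟩ := hcon i₀ hi₀ i hi (fun h => hne (by simp [h]))
      simp only [Set.mem_iUnion]
      exact ⟨x, hx0, val i x, hval i hi x hxi, hi, hxi, rfl⟩
    have : ∃ x ∈ dom i₀, ∃ v ∈ W, {i | i ∈ I ∧ x ∈ dom i ∧ val i x = v}.Infinite := by
      by_contra hfin
      push Not at hfin
      apply hI'
      refine Set.Finite.subset ?_ hcover
      refine Set.Finite.biUnion (Finset.finite_toSet _) (fun x hx => ?_)
      exact Set.Finite.biUnion hW (fun v hv => hfin x hx v hv)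
    obtain ⟨x, _, v, hv, hinf⟩ := this
    obtain ⟨i, hi, j, hj, hij, hcomp⟩ := ih (fun i => (dom i).erase x) _ hinf
      (fun i hi => by
        have h1 := hcard i hi.1
        have h2 := Finset.card_erase_of_mem hi.2.1
        omega)
      (fun i hi y hy => hval i hi.1 y (Finset.mem_of_mem_erase hy))
    obtain ⟨y, hyi, hyj, hne⟩ := hcon i hi.1 j hj.1 hij
    by_cases hyx : y = x
    · subst hyx
      exact hne (hi.2.2.trans hj.2.2.symm)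
    · exact hne (hcomp y (Finset.mem_erase.2 ⟨hyx, hyi⟩) (Finset.mem_erase.2 ⟨hyx, hyj⟩))

/-- The coherent family. -/
noncomputable def fam (ρ : Ω → Ω → ℕ) (c : List ℕ → Bool) (ξ ζ : Ω) : Bool :=
  if ζ < ξ then c (nd ρ ζ (ρ ζ ξ)) else false

theorem fam_lt {ρ : Ω → Ω → ℕ} {c : List ℕ → Bool} {ξ ζ : Ω} (h : ζ < ξ) :
    fam ρ c ξ ζ = c (nd ρ ζ (ρ ζ ξ)) := by simp [fam, h]

theorem fam_self {ρ : Ω → Ω → ℕ} {c : List ℕ → Bool} {ξ : Ω} : fam ρ c ξ ξ = false := by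
  simp [fam]

/-- The choice of a good pair. -/
theorem exists_good_pair {ρ : Ω → Ω → ℕ} (hρ : Coh ρ) (A : Set Ω) (hA : A.Infinite)
    (S : Set (List ℕ)) (hS : S.Finite) :
    ∃ ξ ∈ A, ∃ ξ' ∈ A, ξ < ξ' ∧ nd ρ ξ (ρ ξ ξ') ∉ S ∧
      ∀ ζ < ξ, nd ρ ζ (ρ ζ ξ) ∈ S → nd ρ ζ (ρ ζ ξ') ∈ S → ρ ζ ξ = ρ ζ ξ' := by
  classical
  have hinj : ∀ ξ, Set.InjOn (fun ζ => nd ρ ζ (ρ ζ ξ)) {ζ | ζ < ξ ∧ nd ρ ζ (ρ ζ ξ) ∈ S} := by
    rintro ξ ζ ⟨h1, _⟩ ζ' ⟨h1', _⟩ he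
    simp only at he
    by_contra hne
    have hl := nd_level he
    rw [← hl] at he
    exact nd_ne' hρ hne h1 h1' le_rfl hl.ge he
  have hmaps : ∀ ξ, Set.MapsTo (fun ζ => nd ρ ζ (ρ ζ ξ)) {ζ | ζ < ξ ∧ nd ρ ζ (ρ ζ ξ) ∈ S} S :=
    fun ξ ζ hζ => hζ.2
  have hEfin : ∀ ξ, {ζ | ζ < ξ ∧ nd ρ ζ (ρ ζ ξ) ∈ S}.Finite := fun ξ =>
    Set.Finite.of_injOn (hmaps ξ) (hinj ξ) hS
  have hEcard : ∀ ξ, (hEfin ξ).toFinset.card ≤ hS.toFinset.card := by
    intro ξ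
    apply Finset.card_le_card_of_injOn (fun ζ => nd ρ ζ (ρ ζ ξ))
    · intro ζ hζ
      simp only [Set.Finite.coe_toFinset] at hζ ⊢
      exact hζ.2
    · intro ζ hζ ζ' hζ' he
      simp only [Set.Finite.coe_toFinset] at hζ hζ'
      exact hinj ξ hζ hζ' he
  obtain ⟨i, hi, j, hj, hij, hcomp⟩ := exists_compatible
    (fun ξ ζ => if ζ = ξ then (none : Option (List ℕ)) else some (nd ρ ζ (ρ ζ ξ)))
    (insert none (some '' S)) ((hS.image _).insert _) (hS.toFinset.card + 1)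
    (fun ξ => insert ξ (hEfin ξ).toFinset) A hA
    (fun ξ _ => (Finset.card_insert_le _ _).trans (by have := hEcard ξ; omega))
    (fun ξ _ ζ hζ => by
      rcases Finset.mem_insert.1 hζ with h | h
      · left; simp [h]
      · rw [Set.Finite.mem_toFinset] at h
        right
        rw [if_neg h.1.ne]
        exact ⟨_, h.2, rfl⟩)
  have key : ∀ i j, i < j → (∀ x, x ∈ insert i (hEfin i).toFinset → x ∈ insert j (hEfin j).toFinset →
      (if x = i then (none : Option (List ℕ)) else some (nd ρ x (ρ x i))) =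
      (if x = j then (none : Option (List ℕ)) else some (nd ρ x (ρ x j)))) →
      nd ρ i (ρ i j) ∉ S ∧
      ∀ ζ < i, nd ρ ζ (ρ ζ i) ∈ S → nd ρ ζ (ρ ζ j) ∈ S → ρ ζ i = ρ ζ j := by
    intro i j hij hc
    constructor
    · intro hmem
      have h1 : i ∈ insert j (hEfin j).toFinset := by
        apply Finset.mem_insert_of_mem
        rw [Set.Finite.mem_toFinset]
        exact ⟨hij, hmem⟩
      have h2 := hc i (Finset.mem_insert_self _ _) h1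
      rw [if_pos rfl, if_neg hij.ne] at h2
      exact absurd h2 (by simp)
    · intro ζ hζ hm hm'
      have h1 : ζ ∈ insert i (hEfin i).toFinset := by
        apply Finset.mem_insert_of_mem
        rw [Set.Finite.mem_toFinset]
        exact ⟨hζ, hm⟩
      have h1' : ζ ∈ insert j (hEfin j).toFinset := by
        apply Finset.mem_insert_of_mem
        rw [Set.Finite.mem_toFinset]
        exact ⟨hζ.trans hij, hm'⟩
      have h2 := hc ζ h1 h1'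
      rw [if_neg hζ.ne, if_neg (hζ.trans hij).ne] at h2
      exact nd_level (Option.some.inj h2)
  rcases lt_or_gt_of_ne hij with h | h
  · obtain ⟨k1, k2⟩ := key i j h hcomp
    exact ⟨i, hi, j, hj, h, k1, k2⟩
  · obtain ⟨k1, k2⟩ := key j i h (fun x hx hx' => (hcomp x hx' hx).symm)
    exact ⟨j, hj, i, hi, h, k1, k2⟩

/-- Density: given finitely many values of `c`, we find an extension making two members
comparable. -/
theorem exists_comparable {ρ : Ω → Ω → ℕ} (hρ : Coh ρ) (A : Set Ω) (hA : A.Infinite)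
    (S : Set (List ℕ)) (hS : S.Finite) (hpre : ∀ l ∈ S, ∀ l', l' <+: l → l' ∈ S)
    (c₀ : List ℕ → Bool) :
    ∃ c : List ℕ → Bool, (∀ l ∈ S, c l = c₀ l) ∧ ∃ ξ ∈ A, ∃ ξ' ∈ A, ξ < ξ' ∧
      ∀ ζ ≤ ξ, fam ρ c ξ ζ = fam ρ c ξ' ζ := by
  classical
  obtain ⟨ξ, hξ, ξ', hξ', hlt, hw, hNC⟩ := exists_good_pair hρ A hA S hS
  set up : Ω → List ℕ := fun ζ => nd ρ ζ (max (ρ ζ ξ) (ρ ζ ξ')) with hup
  set low : Ω → List ℕ := fun ζ => nd ρ ζ (min (ρ ζ ξ) (ρ ζ ξ')) with hlow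
  set D : Set Ω := {ζ | ζ < ξ ∧ ρ ζ ξ ≠ ρ ζ ξ'} with hD
  -- the upper labels are new
  have hupne : ∀ ζ ∈ D, ∀ ζ' < ξ, ζ ≠ ζ' → ∀ j, (ρ ζ' ξ = j ∨ ρ ζ' ξ' = j) → up ζ ≠ nd ρ ζ' j := by
    intro ζ hζ ζ' hζ' hne j hj he
    have hl : max (ρ ζ ξ) (ρ ζ ξ') = j := nd_level he
    rw [hup] at he
    simp only [hl] at he
    rcases hj with hj | hj
    · exact nd_ne' hρ hne hζ.1 hζ' (by rw [← hl]; exact le_max_left _ _) hj.le he
    · exact nd_ne' hρ hne (hζ.1.trans hlt) (hζ'.trans hlt)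
        (by rw [← hl]; exact le_max_right _ _) hj.le he
  have hminmax : ∀ ζ, (ρ ζ ξ = max (ρ ζ ξ) (ρ ζ ξ') ∨ ρ ζ ξ' = max (ρ ζ ξ) (ρ ζ ξ')) ∧
      (ρ ζ ξ = min (ρ ζ ξ) (ρ ζ ξ') ∨ ρ ζ ξ' = min (ρ ζ ξ) (ρ ζ ξ')) := by
    intro ζ
    omega
  have hupup : ∀ ζ ∈ D, ∀ ζ' ∈ D, up ζ = up ζ' → ζ = ζ' := by
    intro ζ hζ ζ' hζ' he
    by_contra hne
    exact hupne ζ hζ ζ' hζ'.1 hne _ (hminmax ζ').1 he
  have huplow : ∀ ζ ∈ D, ∀ ζ' < ξ, up ζ ≠ low ζ' := by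
    intro ζ hζ ζ' hζ' he
    by_cases hne : ζ = ζ'
    · subst hne
      have hl : max (ρ ζ ξ) (ρ ζ ξ') = min (ρ ζ ξ) (ρ ζ ξ') := nd_level he
      exact hζ.2 (by omega)
    · exact hupne ζ hζ ζ' hζ' hne _ (hminmax ζ').2 he
  have hwne : ∀ ζ < ξ, ∀ j, (ρ ζ ξ = j ∨ ρ ζ ξ' = j) → nd ρ ζ j ≠ nd ρ ξ (ρ ξ ξ') := by
    intro ζ hζ j hj he
    have hl : j = ρ ξ ξ' := nd_level he
    have hle : ρ ζ ξ ≤ j := by
      rcases hj with hj | hj
      · exact hj.le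
      · refine (hρ.b hζ hlt).trans (max_le hj.le hl.ge)
    rw [← hl] at he
    exact nd_ne hρ hζ hle he
  have hupS : ∀ ζ ∈ D, up ζ ∉ S := by
    intro ζ hζ hm
    have hlS : low ζ ∈ S := hpre _ hm _ (nd_take ρ ζ (by omega))
    apply hζ.2
    rcases le_total (ρ ζ ξ) (ρ ζ ξ') with h | h
    · simp only [hup, hlow, max_eq_right h, min_eq_left h] at hm hlS
      exact hNC ζ hζ.1 hlS hm
    · simp only [hup, hlow, max_eq_left h, min_eq_right h] at hm hlS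
      exact hNC ζ hζ.1 hm hlS
  set c : List ℕ → Bool := fun w => if w ∈ S then c₀ w else
    if h : ∃ ζ ∈ D, up ζ = w ∧ low ζ ∈ S then c₀ (low h.choose) else false with hc
  have hcS : ∀ w ∈ S, c w = c₀ w := fun w hw => by simp only [hc, if_pos hw]
  have hcup : ∀ ζ ∈ D, c (up ζ) = c (low ζ) := by
    intro ζ hζ
    by_cases hlS : low ζ ∈ S
    · rw [hcS _ hlS]
      have hex : ∃ ζ' ∈ D, up ζ' = up ζ ∧ low ζ' ∈ S := ⟨ζ, hζ, rfl, hlS⟩
      have h1 : c (up ζ) = c₀ (low hex.choose) := by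
        simp only [hc]
        rw [if_neg (hupS ζ hζ), dif_pos hex]
      have h2 : hex.choose = ζ := hupup _ hex.choose_spec.1 _ hζ hex.choose_spec.2.1
      rw [h1, h2]
    · have hex : ¬ ∃ ζ' ∈ D, up ζ' = up ζ ∧ low ζ' ∈ S := by
        rintro ⟨ζ', hζ', he, hl'⟩
        have := hupup _ hζ' _ hζ he
        subst this
        exact hlS hl'
      have hex' : ¬ ∃ ζ' ∈ D, up ζ' = low ζ ∧ low ζ' ∈ S := by
        rintro ⟨ζ', hζ', he, _⟩
        exact huplow _ hζ' _ hζ.1 he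
      have h1 : c (up ζ) = false := by
        simp only [hc]
        rw [if_neg (hupS ζ hζ), dif_neg hex]
      have h2 : c (low ζ) = false := by
        simp only [hc]
        rw [if_neg hlS, dif_neg hex']
      rw [h1, h2]
  have hcw : c (nd ρ ξ (ρ ξ ξ')) = false := by
    have hex : ¬ ∃ ζ' ∈ D, up ζ' = nd ρ ξ (ρ ξ ξ') ∧ low ζ' ∈ S := by
      rintro ⟨ζ', hζ', he, _⟩
      exact hwne ζ' hζ'.1 _ (hminmax ζ').1 he
    simp only [hc]
    rw [if_neg hw, dif_neg hex]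
  refine ⟨c, hcS, ξ, hξ, ξ', hξ', hlt, ?_⟩
  intro ζ hζ
  rcases hζ.lt_or_eq with h | h
  · rw [fam_lt h, fam_lt (h.trans hlt)]
    by_cases hd : ρ ζ ξ = ρ ζ ξ'
    · rw [hd]
    · have h1 := hcup ζ ⟨h, hd⟩
      rcases le_total (ρ ζ ξ) (ρ ζ ξ') with h' | h'
      · simp only [hup, hlow, max_eq_right h', min_eq_left h'] at h1
        exact h1.symm
      · simp only [hup, hlow, max_eq_left h', min_eq_right h'] at h1
        exact h1
  · subst h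
    rw [fam_self, fam_lt hlt, hcw]

/-- Density: given finitely many values of `c`, we find an extension making two members
incomparable. -/
theorem exists_incomparable {ρ : Ω → Ω → ℕ} (hρ : Coh ρ) (A : Set Ω) (hA : A.Infinite)
    (S : Set (List ℕ)) (hS : S.Finite) (c₀ : List ℕ → Bool) :
    ∃ c : List ℕ → Bool, (∀ l ∈ S, c l = c₀ l) ∧ ∃ ξ ∈ A, ∃ ξ' ∈ A, ξ < ξ' ∧
      fam ρ c ξ' ξ = true := by
  classical
  obtain ⟨ξ, hξ, ξ', hξ', hlt, hw, _⟩ := exists_good_pair hρ A hA S hS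
  refine ⟨fun w => if w = nd ρ ξ (ρ ξ ξ') then true else c₀ w, ?_, ξ, hξ, ξ', hξ', hlt, ?_⟩
  · intro l hl
    have hne : l ≠ nd ρ ξ (ρ ξ ξ') := by
      rintro rfl
      exact hw hl
    simp only [if_neg hne]
  · rw [fam_lt hlt, if_pos rfl]

end Pool.Agent.Work.MP_e99821_lc
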