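import Mathlib
import Pool.Agent.Work.MP_e99821_lc.Hit
import Pool.Agent.Work.MP_e99821_lc.Tree

/-!
# A Souslin tree from a generic colouring of the labels
-/

namespace Pool.Agent.Work.MP_e99821_lc

open Ordinal

section

variable {Ω : Type*} [LinearOrder Ω]

/-- The colourings making two members of `A` comparable. -/
def compSet (ρ : Ω → Ω → ℕ) (A : Set Ω) : Set (List ℕ → Bool) :=
  {c | ∃ ξ ∈ A, ∃ ξ' ∈ A, ξ < ξ' ∧ ∀ ζ ≤ ξ, fam ρ c ξ ζ = fam ρ c ξ' ζ}

/-- The colourings making two members of `A` incomparable. -/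
def incSet (ρ : Ω → Ω → ℕ) (A : Set Ω) : Set (List ℕ → Bool) :=
  {c | ∃ ξ ∈ A, ∃ ξ' ∈ A, ξ < ξ' ∧ fam ρ c ξ' ξ = true}

theorem isOpen_eq_coord (p q : List ℕ) : IsOpen {c : List ℕ → Bool | c p = c q} := by
  have : Continuous (fun c : List ℕ → Bool => (c p, c q)) :=
    (continuous_apply p).prodMk (continuous_apply q)
  exact (isOpen_discrete {x : Bool × Bool | x.1 = x.2}).preimage this

theorem isOpen_coord (p : List ℕ) (b : Bool) : IsOpen {c : List ℕ → Bool | c p = b} := by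
  have hc : Continuous (fun c : List ℕ → Bool => c p) := continuous_apply p
  exact (isOpen_discrete ({b} : Set Bool)).preimage hc

theorem isOpen_compSet {ρ : Ω → Ω → ℕ} (hρ : Coh ρ) (A : Set Ω) : IsOpen (compSet ρ A) := by
  have : compSet ρ A = ⋃ ξ ∈ A, ⋃ ξ' ∈ A, ⋃ (_ : ξ < ξ'),
      ((⋂ ζ ∈ {ζ | ζ < ξ ∧ ρ ζ ξ ≠ ρ ζ ξ'}, {c | c (nd ρ ζ (ρ ζ ξ)) = c (nd ρ ζ (ρ ζ ξ'))}) ∩
        {c | c (nd ρ ξ (ρ ξ ξ')) = false}) := by
    ext c
    simp only [compSet, Set.mem_ofPred_eq, Set.mem_iUnion, Set.mem_inter_iff, Set.mem_iInter,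
      exists_prop]
    constructor
    · rintro ⟨ξ, hξ, ξ', hξ', hlt, hall⟩
      refine ⟨ξ, hξ, ξ', hξ', hlt, fun ζ hζ => ?_, ?_⟩
      · have := hall ζ hζ.1.le
        rwa [fam_lt hζ.1, fam_lt (hζ.1.trans hlt)] at this
      · have := hall ξ le_rfl
        rw [fam_self, fam_lt hlt] at this
        exact this.symm
    · rintro ⟨ξ, hξ, ξ', hξ', hlt, hall, hw⟩
      refine ⟨ξ, hξ, ξ', hξ', hlt, fun ζ hζ => ?_⟩
      rcases hζ.lt_or_eq with h | h
      · rw [fam_lt h, fam_lt (h.trans hlt)]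
        by_cases hd : ρ ζ ξ = ρ ζ ξ'
        · rw [hd]
        · exact hall ζ ⟨h, hd⟩
      · subst h
        rw [fam_self, fam_lt hlt, hw]
  rw [this]
  refine isOpen_biUnion (fun ξ _ => isOpen_biUnion (fun ξ' _ => isOpen_iUnion (fun hlt => ?_)))
  refine IsOpen.inter ?_ (isOpen_coord _ _)
  exact (diff_finite hρ hlt).isOpen_biInter (fun ζ _ => isOpen_eq_coord _ _)

theorem isOpen_incSet {ρ : Ω → Ω → ℕ} (A : Set Ω) : IsOpen (incSet ρ A) := by
  have : incSet ρ A = ⋃ ξ ∈ A, ⋃ ξ' ∈ A, ⋃ (_ : ξ < ξ'), {c | c (nd ρ ξ (ρ ξ ξ')) = true} := by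
    ext c
    simp only [incSet, Set.mem_ofPred_eq, Set.mem_iUnion, exists_prop]
    constructor
    · rintro ⟨ξ, hξ, ξ', hξ', hlt, h⟩
      rw [fam_lt hlt] at h
      exact ⟨ξ, hξ, ξ', hξ', hlt, h⟩
    · rintro ⟨ξ, hξ, ξ', hξ', hlt, h⟩
      refine ⟨ξ, hξ, ξ', hξ', hlt, ?_⟩
      rw [fam_lt hlt]
      exact h
  rw [this]
  exact isOpen_biUnion (fun ξ _ => isOpen_biUnion (fun ξ' _ => isOpen_iUnion (fun _ =>
    isOpen_coord _ _)))

/-- A criterion for density in the space of colourings. -/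
theorem dense_of_extend (D : Set (List ℕ → Bool))
    (h : ∀ (S : Set (List ℕ)), S.Finite → (∀ l ∈ S, ∀ l', l' <+: l → l' ∈ S) →
      ∀ c₀ : List ℕ → Bool, ∃ c ∈ D, ∀ l ∈ S, c l = c₀ l) : Dense D := by
  rw [dense_iff_inter_open]
  rintro U hU ⟨c₀, hc₀⟩
  obtain ⟨I, v, hv, hsub⟩ := isOpen_pi_iff.1 hU c₀ hc₀
  obtain ⟨c, hcD, hc⟩ := h (⋃ l ∈ I, {l' | l' <+: l})
    (Set.Finite.biUnion (Finset.finite_toSet _) (fun l _ => by
      have : {l' | l' <+: l} = {l' | l' ∈ l.inits} := by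
        ext l'
        simp
      rw [this]
      exact List.finite_toSet _))
    (by
      intro l hl l' hl'
      simp only [Set.mem_iUnion, Set.mem_ofPred_eq, exists_prop] at hl ⊢
      obtain ⟨m, hm, hlm⟩ := hl
      exact ⟨m, hm, hl'.trans hlm⟩) c₀
  refine ⟨c, hsub ?_, hcD⟩
  intro l hl
  have : c l = c₀ l := hc l (by
    simp only [Set.mem_iUnion, Set.mem_ofPred_eq, exists_prop]
    exact ⟨l, hl, List.prefix_rfl⟩)
  rw [this]
  exact (hv l hl).2

theorem dense_compSet {ρ : Ω → Ω → ℕ} (hρ : Coh ρ) (A : Set Ω) (hA : A.Infinite) :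
    Dense (compSet ρ A) := by
  apply dense_of_extend
  intro S hS hpre c₀
  obtain ⟨c, hc, h⟩ := exists_comparable hρ A hA S hS hpre c₀
  exact ⟨c, h, hc⟩

theorem dense_incSet {ρ : Ω → Ω → ℕ} (hρ : Coh ρ) (A : Set Ω) (hA : A.Infinite) :
    Dense (incSet ρ A) := by
  apply dense_of_extend
  intro S hS _ c₀
  obtain ⟨c, hc, h⟩ := exists_incomparable hρ A hA S hS c₀
  exact ⟨c, h, hc⟩

end

/-- The abstract form of the theorem. -/
theorem main_abstract {Ω : Type} [LinearOrder Ω] [WellFoundedLT Ω]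
    (e : Set.Iio (ω_ 1 : Ordinal.{0}) ≃o Ω)
    (hΩ : ∀ a : Ω, (Set.Iio a).Countable) (hunc : ¬ (Set.univ : Set Ω).Countable)
    {ι : Type*} (A : ι → Set Ω) (hA : ∀ i, (A i).Infinite)
    (hst : ∀ X : Set Ω, ¬ X.Countable → ∃ i, A i ⊆ X)
    {Z : Type*} [TopologicalSpace Z] (φ : Z → (List ℕ → Bool)) (hφ : Continuous φ)
    (hφ' : IsOpenMap φ) :
    SouslinTreeExists ∨
      ∃ F : ι → Set Z, (∀ i, IsNowhereDense (F i)) ∧ ⋃ i, F i = Set.univ := by
  classical
  obtain ⟨ρ, hρ⟩ := exists_coh hΩ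
  set D : ι → Set (List ℕ → Bool) := fun i => compSet ρ (A i) ∩ incSet ρ (A i) with hD
  have hDo : ∀ i, IsOpen (D i) := fun i => (isOpen_compSet hρ _).inter (isOpen_incSet _)
  have hDd : ∀ i, Dense (D i) := fun i =>
    (dense_compSet hρ _ (hA i)).inter_of_isOpen_left (dense_incSet hρ _ (hA i))
      (isOpen_compSet hρ _)
  by_cases hcov : ∃ x : Z, ∀ i, φ x ∈ D i
  · left
    obtain ⟨x, hx⟩ := hcov
    refine souslin_of_hit e hΩ hunc (fam ρ (φ x)) ?_ ?_
    · intro X hX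
      obtain ⟨i, hi⟩ := hst X hX
      obtain ⟨ξ, hξ, ξ', hξ', hlt, hall⟩ := (hx i).1
      exact ⟨ξ, hi hξ, ξ', hi hξ', hlt, hall⟩
    · intro X hX
      obtain ⟨i, hi⟩ := hst X hX
      obtain ⟨ξ, hξ, ξ', hξ', hlt, ht⟩ := (hx i).2
      refine ⟨ξ, hi hξ, ξ', hi hξ', hlt, fun hall => ?_⟩
      have := hall ξ le_rfl
      rw [fam_self, ht] at this
      exact Bool.false_ne_true this
  · right
    refine ⟨fun i => {x | φ x ∉ D i}, fun i => ?_, ?_⟩
    · have hopen : IsOpen (φ ⁻¹' (D i)) := (hDo i).preimage hφ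
      have hdense : Dense (φ ⁻¹' (D i)) := (hDd i).preimage hφ'
      show IsNowhereDense (φ ⁻¹' (D i))ᶜ
      rw [(hopen.isClosed_compl).isNowhereDense_iff, interior_compl, hdense.closure_eq,
        Set.compl_univ]
    · ext x
      simp only [Set.mem_iUnion, Set.mem_ofPred_eq, Set.mem_univ, iff_true]
      push Not at hcov
      exact hcov x

/-- The map from the Baire space to the space of colourings. -/
def baireMap (x : ℕ → ℕ) : List ℕ → Bool := fun l => Nat.bodd (x (Encodable.encode l))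

theorem continuous_baireMap : Continuous baireMap :=
  continuous_pi (fun l => continuous_of_discreteTopology.comp
    (continuous_apply (Encodable.encode l)))

theorem isOpenMap_baireMap : IsOpenMap baireMap := by
  intro V hV
  rw [isOpen_pi_iff]
  rintro _ ⟨x, hx, rfl⟩
  obtain ⟨F, v, hv, hsub⟩ := isOpen_pi_iff.1 hV x hx
  refine ⟨F.preimage Encodable.encode (Encodable.encode_injective.injOn),
    fun l => {baireMap x l}, fun l _ => ⟨isOpen_discrete _, rfl⟩, ?_⟩
  intro c hc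
  classical
  -- the point with the values of `x` on `F`, and of parity `c` elsewhere
  let y : ℕ → ℕ := fun n => if n ∈ F then x n else
    (match (Encodable.decode n : Option (List ℕ)) with
      | some l => if c l then 1 else 0
      | none => 0)
  refine ⟨y, hsub ?_, ?_⟩
  · intro n hn
    have : y n = x n := by
      show (if n ∈ F then x n else _) = x n
      rw [if_pos (Finset.mem_coe.1 hn)]
    rw [this]
    exact (hv n hn).2
  · funext l
    show Nat.bodd (y (Encodable.encode l)) = c l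
    by_cases hl : Encodable.encode l ∈ F
    · have h1 : y (Encodable.encode l) = x (Encodable.encode l) := by
        show (if _ ∈ F then x _ else _) = x _
        rw [if_pos hl]
      rw [h1]
      exact (hc l (by simpa using hl)).symm
    · have h1 : y (Encodable.encode l) = if c l then 1 else 0 := by
        show (if _ ∈ F then x _ else _) = _
        rw [if_neg hl, Encodable.encodek]
      rw [h1]
      cases c l <;> rfl

end Pool.Agent.Work.MP_e99821_lc
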