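import Mathlib
import Pool.Agent.Work.MP_e99821_lc.Main

/-!
# The stick number, the covering number of the meagre ideal, and Souslin trees
-/

namespace Pool.Agent.Work.MP_e99821_lc

open Ordinal Cardinal

/-- The type `ω₁`. -/
abbrev Om : Type := (ω_ 1 : Ordinal.{0}).ToType

theorem mk_Om : #Om = ℵ₁ := by
  rw [Cardinal.mk_toType, ← ord_aleph, card_ord]

theorem Om_unc : ¬ (Set.univ : Set Om).Countable := by
  rw [← le_aleph0_iff_set_countable, mk_univ, mk_Om, not_le]
  exact aleph0_lt_aleph_one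

theorem Om_countable (a : Om) : (Set.Iio a).Countable := by
  rw [← le_aleph0_iff_set_countable, ← lt_aleph_one_iff]
  have h : ord #Om = typeLT Om := by
    rw [mk_Om, ord_aleph, type_toType]
  have := mk_Iio_lt a h
  rwa [mk_Om] at this

/-- The isomorphism of the set of countable ordinals with `Om`. -/
noncomputable def eOm : Set.Iio (ω_ 1 : Ordinal.{0}) ≃o Om := Ordinal.ToType.mk

/-- The image in `Om` of a set of ordinals. -/
def toOm (A : Set Ordinal.{0}) : Set Om := {a | ((eOm.symm a : Set.Iio (ω_ 1 : Ordinal.{0})) : Ordinal.{0}) ∈ A}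

/-- The set of ordinals of a subset of `Om`. -/
def ofOm (X : Set Om) : Set Ordinal.{0} :=
  (fun a => ((eOm.symm a : Set.Iio (ω_ 1 : Ordinal.{0})) : Ordinal.{0})) '' X

theorem ofOm_inj : Function.Injective
    (fun a : Om => ((eOm.symm a : Set.Iio (ω_ 1 : Ordinal.{0})) : Ordinal.{0})) :=
  fun _ _ h => eOm.symm.injective (Subtype.ext h)

theorem ofOm_subset (X : Set Om) : ofOm X ⊆ Set.Iio (ω_ 1) := by
  rintro _ ⟨a, _, rfl⟩
  exact (eOm.symm a).2

theorem ofOm_countable {X : Set Om} : (ofOm X).Countable ↔ X.Countable := by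
  constructor
  · intro h
    exact Set.countable_of_injective_of_countable_image ofOm_inj.injOn h
  · intro h
    exact h.image _

theorem toOm_subset {A : Set Ordinal.{0}} {X : Set Om} (h : A ⊆ ofOm X) : toOm A ⊆ X := by
  intro a ha
  obtain ⟨b, hb, hab⟩ := h ha
  rwa [← ofOm_inj hab]

theorem toOm_infinite {A : Set Ordinal.{0}} (hA : A ⊆ Set.Iio (ω_ 1)) (h : A.Infinite) :
    (toOm A).Infinite := by
  intro hfin
  apply h
  refine (hfin.image
    (fun a : Om => ((eOm.symm a : Set.Iio (ω_ 1 : Ordinal.{0})) : Ordinal.{0}))).subset ?_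
  intro x hx
  refine ⟨eOm ⟨x, hA hx⟩, ?_, ?_⟩
  · show ((eOm.symm (eOm ⟨x, hA hx⟩) : Set.Iio (ω_ 1 : Ordinal.{0})) : Ordinal.{0}) ∈ A
    rw [OrderIso.symm_apply_apply]
    exact hx
  · show ((eOm.symm (eOm ⟨x, hA hx⟩) : Set.Iio (ω_ 1 : Ordinal.{0})) : Ordinal.{0}) = x
    rw [OrderIso.symm_apply_apply]

theorem stick_dichotomy (κ : Cardinal.{0}) (h : StickAtMost κ) :
    SouslinTreeExists ∨ CovMeagreAtMost κ := by
  classical
  obtain ⟨ι, A, hκ, hA, hst⟩ := h
  set B : ι → Set Om := fun i => if A i ⊆ Set.Iio (ω_ 1) then toOm (A i) else Set.univ with hB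
  have h1 : ∀ i, (B i).Infinite := by
    intro i
    by_cases hi : A i ⊆ Set.Iio (ω_ 1)
    · simp only [hB, if_pos hi]
      exact toOm_infinite hi (hA i)
    · simp only [hB, if_neg hi]
      intro hfin
      exact Om_unc hfin.countable
  have h2 : ∀ X : Set Om, ¬ X.Countable → ∃ i, B i ⊆ X := by
    intro X hX
    obtain ⟨i, hi⟩ := hst (ofOm X) (ofOm_subset X) (fun h => hX (ofOm_countable.1 h))
    refine ⟨i, ?_⟩
    simp only [hB, if_pos (hi.trans (ofOm_subset X))]
    exact toOm_subset hi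
  rcases main_abstract eOm Om_countable Om_unc B h1 h2 baireMap continuous_baireMap
    isOpenMap_baireMap with h | ⟨F, hF, hcov⟩
  · exact Or.inl h
  · right
    refine ⟨Set.range F, Cardinal.mk_range_le.trans hκ, ?_, ?_⟩
    · rintro _ ⟨i, rfl⟩
      exact hF i
    · rw [Set.sUnion_range]
      exact hcov

theorem infinite_of_cofinal {α : Ordinal.{0}} (hα : Order.IsSuccLimit α) {A : Set Ordinal.{0}}
    (hsub : A ⊆ Set.Iio α) (h : ∀ β < α, ∃ γ ∈ A, β < γ) : A.Infinite := by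
  intro hfin
  have h0 : (0 : Ordinal.{0}) < α := by
    rcases eq_or_ne α 0 with h0 | h0
    · exact absurd (by rw [h0]; exact isMin_bot) hα.1
    · exact pos_iff_ne_zero.2 h0
  obtain ⟨γ₀, hγ₀, _⟩ := h 0 h0
  obtain ⟨m, hm, hmax⟩ := hfin.exists_maximal ⟨γ₀, hγ₀⟩
  obtain ⟨γ, hγ, hlt⟩ := h m (hsub hm)
  exact absurd (hmax hγ hlt.le) (not_le.2 hlt)

theorem stick_of_club (h : ClubPrinciple) : StickAtMost ℵ₁ := by
  classical
  obtain ⟨A, hA, hX⟩ := h
  refine ⟨Om, fun a => if Order.IsSuccLimit ((eOm.symm a : Set.Iio (ω_ 1 : Ordinal.{0})) :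
    Ordinal.{0}) then A ((eOm.symm a : Set.Iio (ω_ 1 : Ordinal.{0})) : Ordinal.{0})
      else Set.Iio (ω_ 1), mk_Om.le, ?_, ?_⟩
  · intro a
    by_cases ha : Order.IsSuccLimit ((eOm.symm a : Set.Iio (ω_ 1 : Ordinal.{0})) : Ordinal.{0})
    · simp only [if_pos ha]
      have h1 := hA _ (eOm.symm a).2 ha
      exact infinite_of_cofinal ha h1.1 h1.2
    · simp only [if_neg ha]
      intro hfin
      apply Om_unc
      have : ofOm Set.univ ⊆ Set.Iio (ω_ 1) := ofOm_subset _
      exact ofOm_countable.1 (hfin.countable.mono this)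
  · intro X hXs hXc
    obtain ⟨α, hα, hlim, hsub⟩ := hX X hXs hXc
    refine ⟨eOm ⟨α, hα⟩, ?_⟩
    simp only [OrderIso.symm_apply_apply]
    rw [if_pos hlim]
    exact hsub

end Pool.Agent.Work.MP_e99821_lc
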