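import Mathlib
import Pool.Agent.Work.MP_e99821_lc.Level
import Pool.Agent.Work.MP_e99821_lc.PartA

/-!
# The club principle with small cardinal invariants of category gives a Souslin tree
-/

namespace Pool.Agent.Work.MP_e99821_lc

open Ordinal Cardinal

section Final

variable {Ω : Type} [LinearOrder Ω] {q : Ω → Ω × Ω} {A : Ω → Set Ω} {C : Ω → Col Ω}

/-- The nodes of the final tree. -/
@[ext]
structure TNode (C : Ω → Col Ω) : Type where
  /-- the underlying node candidate -/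
  nd : Nd Ω
  mem : nd.2 ∈ (C nd.1).1

/-- The tree order. -/
@[reducible]
def tnodeOrder (hC : ∀ α, GoodB q A C α (C α)) : PartialOrder (TNode C) where
  le p p' := Ext p.nd p'.nd
  le_refl p := Ext.refl p.nd
  le_trans _ _ _ h1 h2 := h1.trans h2
  le_antisymm p p' h1 h2 := by
    apply TNode.ext
    have hl : p.nd.1 = p'.nd.1 := le_antisymm h1.1 h2.1
    apply Prod.ext hl
    funext ζ
    by_cases hζ : ζ ≤ p.nd.1
    · exact h1.2 ζ hζ
    · rw [(hC p.nd.1).supp _ p.mem ζ (not_le.1 hζ),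
        (hC p'.nd.1).supp _ p'.mem ζ (by rw [← hl]; exact not_le.1 hζ)]

theorem cut_node (hC : ∀ α, GoodB q A C α (C α)) (p : TNode C) (β : Ω) (h : β ≤ p.nd.1) :
    cut p.nd.2 β ∈ (C β).1 := by
  rcases h.eq_or_lt with h | h
  · rw [h, cut_eq_self (fun ζ hζ => (hC p.nd.1).supp _ p.mem ζ hζ)]
    exact p.mem
  · exact (hC p.nd.1).cut_mem _ p.mem β h

/-- The restriction of a node. -/
def cutNode (hC : ∀ α, GoodB q A C α (C α)) (p : TNode C) (β : Ω) (h : β ≤ p.nd.1) : TNode C :=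
  ⟨(β, cut p.nd.2 β), cut_node hC p β h⟩

theorem cut_ext (p : TNode C) (β : Ω) (h : β ≤ p.nd.1) : Ext (β, cut p.nd.2 β) p.nd := by
  refine ⟨h, fun ζ hζ => ?_⟩
  show cut p.nd.2 β ζ = p.nd.2 ζ
  unfold cut
  rw [if_pos (show ζ ≤ β from hζ)]

theorem tnode_lev_lt (hC : ∀ α, GoodB q A C α (C α)) :
    letI := tnodeOrder hC
    ∀ {x p : TNode C}, x < p → Ext x.nd p.nd ∧ x.nd.1 < p.nd.1 := by
  letI := tnodeOrder hC
  intro x p hx
  have h1 : Ext x.nd p.nd := hx.le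
  refine ⟨h1, lt_of_le_of_ne h1.1 (fun he => ?_)⟩
  have h2 : p ≤ x := ⟨he.ge, fun ζ hζ => (h1.2 ζ (by rw [he]; exact hζ)).symm⟩
  exact absurd h2 (not_le_of_gt hx)

theorem cutNode_lt (hC : ∀ α, GoodB q A C α (C α)) :
    letI := tnodeOrder hC
    ∀ (p : TNode C) (β : Ω) (h : β < p.nd.1), cutNode hC p β h.le < p := by
  letI := tnodeOrder hC
  intro p β h
  have h1 : cutNode hC p β h.le ≤ p := cut_ext p β h.le
  refine lt_of_le_of_ne h1 (fun he => ?_)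
  have : (cutNode hC p β h.le).nd.1 = p.nd.1 := by rw [he]
  exact h.ne this

/-- The initial segments of the tree. -/
noncomputable def tnodeIio (hC : ∀ α, GoodB q A C α (C α)) (p : TNode C) :
    letI := tnodeOrder hC
    Set.Iio p ≃o Set.Iio p.nd.1 :=
  letI := tnodeOrder hC
  { toFun := fun x => ⟨x.1.nd.1, (tnode_lev_lt hC (x := x.1) (p := p) x.2).2⟩
    invFun := fun β => ⟨cutNode hC p β.1 (le_of_lt β.2), cutNode_lt hC p β.1 β.2⟩
    left_inv := fun x => by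
      apply Subtype.ext
      apply TNode.ext
      apply Prod.ext
      · rfl
      · funext ζ
        have h1 := (tnode_lev_lt hC (x := x.1) (p := p) x.2).1
        show cut p.nd.2 x.1.nd.1 ζ = x.1.nd.2 ζ
        unfold cut
        by_cases hζ : ζ ≤ x.1.nd.1
        · rw [if_pos hζ]
          exact (h1.2 ζ hζ).symm
        · rw [if_neg hζ]
          exact ((hC x.1.nd.1).supp _ x.1.mem ζ (not_le.1 hζ)).symm
    right_inv := fun _ => rfl
    map_rel_iff' := by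
      intro x y
      constructor
      · intro h
        have h' : x.1.nd.1 ≤ y.1.nd.1 := h
        have hx := (tnode_lev_lt hC (x := x.1) (p := p) x.2).1
        have hy := (tnode_lev_lt hC (x := y.1) (p := p) y.2).1
        exact ⟨h', fun ζ hζ => (hx.2 ζ hζ).trans (hy.2 ζ (hζ.trans h')).symm⟩
      · intro h
        exact h.1 }

/-- Every dense open subset of the tree includes a level. -/
theorem dense_open_level [WellFoundedLT Ω] (hΩ : ∀ a : Ω, (Set.Iio a).Countable)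
    (hunc : ¬ (Set.univ : Set Ω).Countable) (hC : ∀ α, GoodB q A C α (C α))
    (hq : ∀ (p : Ω × Ω) (b : Ω), ∃ ξ, b < ξ ∧ q ξ = p)
    (hclub : ∀ X : Set Ω, ¬ X.Countable → ∃ α, (Set.Iio α).Nonempty ∧ A α ⊆ X ∧
      A α ⊆ Set.Iio α ∧ ∀ β < α, ∃ γ ∈ A α, β < γ)
    (U : Set (Nd Ω)) (hU : ∀ t : Nd Ω, t.2 ∈ (C t.1).1 → ∃ u ∈ U, u.2 ∈ (C u.1).1 ∧ Ext t u)
    (hUo : ∀ u ∈ U, ∀ v : Nd Ω, v.2 ∈ (C v.1).1 → Ext u v → v ∈ U) :
    ∃ α, ∀ f ∈ (C α).1, (α, f) ∈ U := by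
  classical
  have wf : WellFounded ((· < ·) : Ω → Ω → Prop) := IsWellFounded.wf
  have hU' : ∀ t : Nd Ω, ∃ u : Nd Ω, t.2 ∈ (C t.1).1 → u ∈ U ∧ u.2 ∈ (C u.1).1 ∧ Ext t u := by
    intro t
    by_cases ht : t.2 ∈ (C t.1).1
    · obtain ⟨u, h1, h2, h3⟩ := hU t ht
      exact ⟨u, fun _ => ⟨h1, h2, h3⟩⟩
    · exact ⟨t, fun h => absurd h ht⟩
  choose u hu using hU'
  -- the next closure point
  have hnx : ∀ β : Ω, ∃ β', β < β' ∧ ∀ t ∈ Tb (fun β => (C β).1) β, (u t).1 < β' := by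
    intro β
    have h1 : (Tb (fun β => (C β).1) β).Countable := Tb_countable (hΩ β) (fun γ _ => hC γ)
    obtain ⟨δ, hδ⟩ := bddAbove_of_countable' hΩ hunc (h1.image (fun t => (u t).1))
    obtain ⟨β', _, hβ'⟩ := unbounded_of_uncountable hΩ hunc (max β δ)
    refine ⟨β', (le_max_left _ _).trans_lt hβ', fun t ht => ?_⟩
    exact (hδ _ ⟨t, ht, rfl⟩).trans_lt ((le_max_right _ _).trans_lt hβ')
  choose nx hnx1 hnx2 using hnx
  have hD : ∀ b : Ω, ∃ δ, b < δ ∧ ∀ t ∈ Tb (fun β => (C β).1) δ,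
      u t ∈ Tb (fun β => (C β).1) δ := by
    intro b
    let β : ℕ → Ω := fun n => nx^[n] b
    have hβs : ∀ n, β (n + 1) = nx (β n) := fun n => Function.iterate_succ_apply' nx n b
    have hβlt : ∀ n, β n < β (n + 1) := fun n => by rw [hβs]; exact hnx1 _
    have hne : {x | ∀ n, β n ≤ x}.Nonempty := by
      obtain ⟨δ, hδ⟩ := bddAbove_of_countable' hΩ hunc (Set.countable_range β)
      exact ⟨δ, fun n => hδ _ ⟨n, rfl⟩⟩
    have hmem := wf.min_mem _ hne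
    refine ⟨wf.min _ hne, (hβlt 0).trans_le (hmem 1), fun t ht => ?_⟩
    obtain ⟨n, hn⟩ : ∃ n, t.1 < β n := by
      by_contra hcon
      push Not at hcon
      exact wf.not_lt_min {x | ∀ n, β n ≤ x} hcon ht.1
    have h1 := hnx2 (β n) t ⟨hn, ht.2⟩
    rw [← hβs] at h1
    exact ⟨h1.trans ((hβlt (n + 1)).trans_le (hmem (n + 2))), (hu t ht.2).2.1⟩
  obtain ⟨Z, hZunc, hZP, hZ⟩ := exists_thin hΩ hunc
    (fun ξ => (q ξ).1 ≤ ξ ∧ ∀ t ∈ Tb (fun β => (C β).1) (q ξ).1, (C (q ξ).1).2 (q ξ).2 t ∈ U)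
    (fun ξ => (q ξ).1) (by
      intro b
      obtain ⟨δ, hδ, hδT⟩ := hD b
      obtain ⟨i, hi⟩ := (hC δ).guess (U ∩ {t | t.2 ∈ (C t.1).1})
        (fun t ht => ⟨u t, ⟨(hu t ht.2).1, (hu t ht.2).2.1⟩, hδT t ht, (hu t ht.2).2.2⟩)
        (fun w hw v hv hE => ⟨hUo w hw.1 v hv.2 hE, hv.2⟩)
      obtain ⟨ξ, hξ, hqξ⟩ := hq (δ, i) δ
      refine ⟨ξ, ⟨?_, ?_⟩, hδ.trans hξ, ?_⟩
      · rw [hqξ]; exact hξ.le
      · rw [hqξ]
        intro t ht
        exact (hi t ht).1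
      · show b < (q ξ).1
        rw [hqξ]
        exact hδ)
  obtain ⟨α, hαne, hAZ, hAα, hAcof⟩ := hclub Z hZunc
  have hG : ∀ β < α, ∃ π ∈ A α, β < (q π).1 ∧ (q π).1 < α := by
    intro β hβ
    obtain ⟨π₁, hπ₁, h1⟩ := hAcof β hβ
    obtain ⟨π₂, hπ₂, h2⟩ := hAcof π₁ (hAα hπ₁)
    refine ⟨π₂, hπ₂, ?_, ?_⟩
    · exact h1.trans (hZ π₁ (hAZ hπ₁) π₂ (hAZ hπ₂) h2)
    · exact (hZP π₂ (hAZ hπ₂)).1.trans_lt (hAα hπ₂)
  refine ⟨α, fun f hf => ?_⟩
  obtain ⟨π, hπ, _, t, ht, hE⟩ := (hC α).sealing hαne hG f hf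
  exact hUo _ ((hZP π (hAZ hπ)).2 t ht) (α, f) hf hE

theorem souslin_of_col [WellFoundedLT Ω] (e : Set.Iio (ω_ 1 : Ordinal.{0}) ≃o Ω)
    (hΩ : ∀ a : Ω, (Set.Iio a).Countable)
    (hunc : ¬ (Set.univ : Set Ω).Countable) (hC : ∀ α, GoodB q A C α (C α))
    (hlev : ∀ U : Set (Nd Ω),
      (∀ t : Nd Ω, t.2 ∈ (C t.1).1 → ∃ u ∈ U, u.2 ∈ (C u.1).1 ∧ Ext t u) →
      (∀ u ∈ U, ∀ v : Nd Ω, v.2 ∈ (C v.1).1 → Ext u v → v ∈ U) →
      ∃ α, ∀ f ∈ (C α).1, (α, f) ∈ U) : SouslinTreeExists := by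
  classical
  letI := tnodeOrder hC
  -- sets of nodes below a level are countable
  have hsmall : ∀ (X : Set (TNode C)) (α : Ω), (∀ p ∈ X, p.nd.1 < α) → X.Countable := by
    intro X α hX
    have h1 : (Tb (fun β => (C β).1) α).Countable := Tb_countable (hΩ α) (fun γ _ => hC γ)
    refine Set.countable_of_injective_of_countable_image (f := fun p : TNode C => p.nd)
      (fun _ _ _ _ h => TNode.ext h) (h1.mono ?_)
    rintro _ ⟨p, hp, rfl⟩
    exact ⟨hX p hp, p.mem⟩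
  refine ⟨TNode C, inferInstance, ?_, ?_, ?_, ?_⟩
  · intro t
    refine ⟨(e.symm t.nd.1).1, (e.symm t.nd.1).2, ⟨?_⟩⟩
    have i1 := tnodeIio hC t
    have i2 := iioIsoOfIso e.symm t.nd.1
    have i3 := iioIioIso (e.symm t.nd.1)
    exact (i1.trans i2).trans i3
  · intro α hα
    set β : Ω := e ⟨α, hα⟩ with hβ
    obtain ⟨f, hf⟩ := (hC β).nonempty
    refine ⟨⟨(β, f), hf⟩, ⟨?_⟩⟩
    have i1 := tnodeIio hC (⟨(β, f), hf⟩ : TNode C)
    have i2 := iioIsoOfIso e ⟨α, hα⟩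
    have i3 := iioIioIso (⟨α, hα⟩ : Set.Iio (ω_ 1 : Ordinal.{0}))
    exact (i1.trans i2.symm).trans i3
  · -- chains
    intro K hK
    by_contra hcount
    obtain ⟨α, hα⟩ := hlev {t | ¬ ∃ p ∈ K, Ext t p.nd} (by
      intro t ht
      -- two incomparable extensions
      obtain ⟨δ, _, hδ⟩ := unbounded_of_uncountable hΩ hunc t.1
      obtain ⟨f₀, hf₀, h0, h0'⟩ := (hC δ).extend t ⟨hδ, ht⟩ 0
      obtain ⟨f₁, hf₁, h1, h1'⟩ := (hC δ).extend t ⟨hδ, ht⟩ 1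
      by_cases hb : ∃ p ∈ K, Ext (δ, f₀) p.nd
      · refine ⟨(δ, f₁), ?_, hf₁, hδ.le, h1⟩
        rintro ⟨p', hp', hE'⟩
        obtain ⟨p, hp, hE⟩ := hb
        have hval : ∀ x : TNode C, x ∈ K → ∀ y : TNode C, y ∈ K → δ ≤ x.nd.1 →
            δ ≤ y.nd.1 → x.nd.2 δ = y.nd.2 δ := by
          intro x hx y hy hx' hy'
          rcases hK.total hx hy with h | h
          · exact h.2 δ hx'
          · exact (h.2 δ hy').symm
        have h2 := hval p hp p' hp' hE.1 hE'.1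
        have h3 : f₀ δ = p.nd.2 δ := hE.2 δ le_rfl
        have h4 : f₁ δ = p'.nd.2 δ := hE'.2 δ le_rfl
        rw [← h3, ← h4, h0', h1'] at h2
        exact absurd h2 (by norm_num)
      · exact ⟨(δ, f₀), hb, hf₀, hδ.le, h0⟩) (by
      rintro w hw v hv hE ⟨p, hp, hEp⟩
      exact hw ⟨p, hp, hE.trans hEp⟩)
    apply hcount
    apply hsmall K α
    intro p hp
    by_contra hlt
    have hle : α ≤ p.nd.1 := not_lt.1 hlt
    apply hα _ (cut_node hC p α hle)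
    exact ⟨p, hp, cut_ext p α hle⟩
  · -- antichains
    intro K hK
    by_contra hcount
    obtain ⟨α, hα⟩ := hlev {t | (∃ p ∈ K, Ext p.nd t) ∨ ∀ v : Nd Ω, v.2 ∈ (C v.1).1 →
        Ext t v → ∀ p ∈ K, ¬ Ext p.nd v} (by
      intro t ht
      by_cases hb : ∃ v : Nd Ω, v.2 ∈ (C v.1).1 ∧ Ext t v ∧ ∃ p ∈ K, Ext p.nd v
      · obtain ⟨v, hv, hE, hp⟩ := hb
        exact ⟨v, Or.inl hp, hv, hE⟩
      · refine ⟨t, Or.inr ?_, ht, Ext.refl t⟩
        intro v hv hE p hp hEp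
        exact hb ⟨v, hv, hE, p, hp, hEp⟩) (by
      rintro w (⟨p, hp, hE⟩ | hw) v hv hEv
      · exact Or.inl ⟨p, hp, hE.trans hEv⟩
      · exact Or.inr (fun x hx hEx => hw x hx (hEv.trans hEx)))
    obtain ⟨α', _, hα'⟩ := unbounded_of_uncountable hΩ hunc α
    apply hcount
    apply hsmall K α'
    intro p hp
    refine lt_of_le_of_lt ?_ hα'
    by_contra hlt
    have hlt' : α < p.nd.1 := not_le.1 hlt
    rcases hα _ (cut_node hC p α hlt'.le) with ⟨p', hp', hE⟩ | hno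
    · have hne : p' ≠ p := by
        rintro rfl
        exact absurd hE.1 (not_le.2 hlt')
      have hle : p' ≤ p := hE.trans (cut_ext p α hlt'.le)
      exact hK hp' hp hne hle
    · exact hno p.nd p.mem (cut_ext p α hlt'.le) p hp (Ext.refl _)

end Final

theorem exists_surj_of_card {X : Type} [Nonempty X] (h : #X ≤ ℵ₁) :
    ∃ f : Om → X, Function.Surjective f := by
  rw [← mk_Om] at h
  obtain ⟨g⟩ := h
  exact ⟨Function.invFun g, Function.invFun_surjective g.injective⟩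

theorem card_prod_le {X Y : Type} (hX : #X ≤ ℵ₁) (hY : #Y ≤ ℵ₁) : #(X × Y) ≤ ℵ₁ := by
  rw [mk_prod, Cardinal.lift_id, Cardinal.lift_id]
  exact (mul_le_mul' hX hY).trans (mul_eq_self (aleph0_le_aleph 1)).le

/-- A map onto the pairs all of whose fibres are unbounded. -/
theorem exists_pairing : ∃ q : Om → Om × Om, ∀ (p : Om × Om) (b : Om), ∃ ξ, b < ξ ∧ q ξ = p := by
  have hcard : #((Om × Om) × Om) = #Om := by
    rw [mk_prod, mk_prod, Cardinal.lift_id, Cardinal.lift_id, mk_Om]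
    rw [mul_eq_self (aleph0_le_aleph 1), mul_eq_self (aleph0_le_aleph 1)]
  obtain ⟨e⟩ := Cardinal.eq.1 hcard
  refine ⟨fun ξ => (e.symm ξ).1, fun p b => ?_⟩
  have hunc : ¬ (Set.range (fun x : Om => e (p, x))).Countable := by
    intro h
    apply Om_unc
    have : (Set.univ : Set Om) = (fun x : Om => e (p, x)) ⁻¹' Set.range (fun x : Om => e (p, x)) := by
      ext a; simp
    rw [this]
    refine h.preimage ?_
    intro a b hab
    exact (Prod.mk.inj (e.injective hab)).2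
  obtain ⟨_, ⟨x, rfl⟩, hx⟩ := unbounded_of_uncountable Om_countable hunc b
  exact ⟨e (p, x), hx, by simp⟩

/-- The club principle on `Om`. -/
theorem club_on_Om (h : ClubPrinciple) : ∃ A : Om → Set Om, ∀ X : Set Om, ¬ X.Countable →
    ∃ α, (Set.Iio α).Nonempty ∧ A α ⊆ X ∧ A α ⊆ Set.Iio α ∧ ∀ β < α, ∃ γ ∈ A α, β < γ := by
  obtain ⟨A, hA, hX⟩ := h
  refine ⟨fun a => toOm (A ((eOm.symm a : Set.Iio (ω_ 1 : Ordinal.{0})) : Ordinal.{0})), ?_⟩
  intro X hXc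
  obtain ⟨α, hα, hlim, hsub⟩ := hX (ofOm X) (ofOm_subset X) (fun h => hXc (ofOm_countable.1 h))
  obtain ⟨h1, h2⟩ := hA α hα hlim
  have hback : ((eOm.symm (eOm ⟨α, hα⟩) : Set.Iio (ω_ 1 : Ordinal.{0})) : Ordinal.{0}) = α := by
    rw [OrderIso.symm_apply_apply]
  have hlt : ∀ (β : Om), β < eOm ⟨α, hα⟩ ↔
      ((eOm.symm β : Set.Iio (ω_ 1 : Ordinal.{0})) : Ordinal.{0}) < α := by
    intro β
    rw [← eOm.symm.lt_iff_lt, OrderIso.symm_apply_apply]
    exact Iff.rfl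
  have hmk : ∀ γ (hγ : γ < ω_ 1),
      ((eOm.symm (eOm ⟨γ, hγ⟩) : Set.Iio (ω_ 1 : Ordinal.{0})) : Ordinal.{0}) = γ := by
    intro γ hγ
    rw [OrderIso.symm_apply_apply]
  have h0 : (0 : Ordinal.{0}) < α := by
    rcases eq_or_ne α 0 with h0 | h0
    · exact absurd (by rw [h0]; exact isMin_bot) hlim.1
    · exact pos_iff_ne_zero.2 h0
  refine ⟨eOm ⟨α, hα⟩, ⟨eOm ⟨0, h0.trans hα⟩, ?_⟩, ?_, ?_, ?_⟩
  · show eOm ⟨0, h0.trans hα⟩ < eOm ⟨α, hα⟩
    rw [hlt, hmk]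
    exact h0
  · simp only [hback]
    exact toOm_subset hsub
  · intro γ hγ
    simp only [hback] at hγ
    show γ < eOm ⟨α, hα⟩
    rw [hlt]
    exact h1 hγ
  · intro β hβ
    obtain ⟨γ, hγ, hβγ⟩ := h2 _ ((hlt β).1 hβ)
    have hγα : γ < α := h1 hγ
    refine ⟨eOm ⟨γ, hγα.trans hα⟩, ?_, ?_⟩
    · simp only [hback]
      show ((eOm.symm (eOm ⟨γ, hγα.trans hα⟩) : Set.Iio (ω_ 1 : Ordinal.{0})) : Ordinal.{0}) ∈ A α
      rw [hmk]
      exact hγ
    · rw [← eOm.symm.lt_iff_lt, OrderIso.symm_apply_apply]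
      exact hβγ

/-- The club principle and small cardinal invariants give a Souslin tree. -/
theorem club_dichotomy (h : ClubPrinciple) (hM : NonMeagreAtMost ℵ₁) (hD : DominatingAtMost ℵ₁) :
    SouslinTreeExists := by
  classical
  obtain ⟨A, hA⟩ := club_on_Om h
  obtain ⟨q, hq⟩ := exists_pairing
  obtain ⟨X, hXcard, hXM⟩ := hM
  obtain ⟨D, hDcard, hDom⟩ := hD
  -- the nonmeagre family
  have hDne : Nonempty D := by
    obtain ⟨g, hg, _⟩ := hDom (fun _ => 0)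
    exact ⟨⟨g, hg⟩⟩
  have hXne : Nonempty X := by
    by_contra hne
    apply hXM
    have : X = ∅ := Set.not_nonempty_iff_eq_empty.1 (fun ⟨x, hx⟩ => hne ⟨⟨x, hx⟩⟩)
    rw [this]
    exact IsMeagre.empty
  have hNle : #ℕ ≤ ℵ₁ := by
    rw [mk_nat]
    exact aleph0_le_aleph 1
  obtain ⟨p, hp⟩ := exists_surj_of_card (X := X × (D × ℕ))
    (card_prod_le hXcard (card_prod_le hDcard hNle))
  have hr : ¬ IsMeagre (Set.range (fun x : X => (x : ℕ → ℕ))) := by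
    rw [Subtype.range_coe]
    exact hXM
  have hg : ∀ f : ℕ → ℕ, ∃ j : D × ℕ, ∀ n, f n ≤ (fun (j : D × ℕ) (n : ℕ) =>
      max ((j.1 : ℕ → ℕ) n) j.2) j n := by
    intro f
    obtain ⟨g, hgD, hev⟩ := hDom f
    obtain ⟨N, hN⟩ := Filter.eventually_atTop.1 hev
    refine ⟨(⟨g, hgD⟩, (Finset.range N).sup f), fun n => ?_⟩
    by_cases hn : N ≤ n
    · exact (hN n hn).trans (le_max_left _ _)
    · exact (Finset.le_sup (f := f) (Finset.mem_range.2 (by omega))).trans (le_max_right _ _)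
  obtain ⟨C, hC⟩ := exists_col Om_countable q A p hp (fun x : X => (x : ℕ → ℕ)) hr
    (fun (j : D × ℕ) (n : ℕ) => max ((j.1 : ℕ → ℕ) n) j.2) hg
  exact souslin_of_col eOm Om_countable Om_unc hC
    (fun U h1 h2 => dense_open_level Om_countable Om_unc hC hq hA U h1 h2)

end Pool.Agent.Work.MP_e99821_lc
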