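import Mathlib
import Pool.Agent.Work.MP_e99821_lc.PartB

/-!
# The club principle gives a Souslin tree unless `cov(M) = ℵ₁ < cof(M)`

The definitions (`ClubPrinciple`, `SouslinTreeExists`, `CovMeagreAtMost`, `NonMeagreAtMost`,
`DominatingAtMost`) are in `Pool/Agent/Work/MP_e99821_lc/Defs.lean`.

First half: a Todorcevic function `ρ` on `[ω₁]²` gives, for every colouring `c` of the finite
sequences of natural numbers, a coherent tree `T^c` such that for every infinite set of levels two
of the distinguished branches indexed by it are comparable, and two are incomparable, for all `c` in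
a dense open set.  If the Baire space is not a union of `ℵ₁` nowhere dense sets, one `c` works for
all the ladders of the club sequence.

Second half: a recursive construction of a tree, in which the dense open sets of the countable
initial subtrees are guessed by `ℵ₁` many maps, built from a nonmeagre set and a dominating family,
and the club principle guesses infinitely many of the guesses.
-/

namespace Pool.Agent.Work.MP_e99821_lc.CategoryDichotomy

open Pool.Agent.Work.MP_e99821_lc Cardinal

/-- If the club principle holds then there is an `ℵ₁`-Souslin tree, or `cov(M) ≤ ℵ₁` and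
`cof(M) = max (non(M), 𝔡) > ℵ₁`. -/
theorem result (h : ClubPrinciple) :
    SouslinTreeExists ∨
      (CovMeagreAtMost ℵ₁ ∧ ¬ (NonMeagreAtMost ℵ₁ ∧ DominatingAtMost ℵ₁)) := by
  by_cases hS : SouslinTreeExists
  · exact Or.inl hS
  · right
    refine ⟨?_, fun hMD => hS (club_dichotomy h hMD.1 hMD.2)⟩
    rcases stick_dichotomy ℵ₁ (stick_of_club h) with h' | h'
    · exact absurd h' hS
    · exact h'

end Pool.Agent.Work.MP_e99821_lc.CategoryDichotomy
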